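import Mathlib
import Pool.Agent.Helper71.TreeDefs

/-!
Alternating networks with a hole in which three parallel strands are given a full twist, or are
replaced by a braid-like word in rational twists whose displacement is that of a full twist.
-/

set_option autoImplicit false

namespace Pool.Agent.Helper25.FT

open Pool.Agent.Helper71.Rot (Letter)
open Pool.Agent.Helper71.Tree (Glued Role)

/-- A graph with vertices `0, …, n + 2`, the vertices `0`, `1`, `2` being marked, with edges
`0, …, e - 1`, and for every vertex a list of pairs `(edge, false)` or `(edge, true)`, which is
meant to list the edge ends at the vertex, `false` standing for a source and `true` for a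
target.  For a connected plane graph, this describes an alternating diagram of a tangle in the
complement of a disc (the hole) which the diagram meets in three strands below and three
strands above: the vertices are the white regions, the edges are the crossings, and the vertices
`0`, `1`, `2` are the white regions to the left, below, and above the hole. -/
structure Pattern : Type where
  n : ℕ
  e : ℕ
  src : Fin e → Fin (n + 3)
  tgt : Fin e → Fin (n + 3)
  rot : Fin (n + 3) → List (Fin e × Bool)

/-- The lists consist of the edge ends at the vertices, and the graph is connected. -/
def Pattern.Valid (Γ : Pattern) : Prop :=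
  (∀ v i, ((i, false) ∈ Γ.rot v ↔ Γ.src i = v) ∧ ((i, true) ∈ Γ.rot v ↔ Γ.tgt i = v)) ∧
  ∀ v, Relation.EqvGen (fun u w => ∃ i : Fin Γ.e, Γ.src i = u ∧ Γ.tgt i = w) 0 v

/-- Elements of a group which satisfy the relations of the fundamental group (in Brunner's
presentation) of the double cover of the complement of the crossing balls and of the hole,
branched along the strands.  The elements `w 1`, `bot` are the standard generators `a`, `b` of
the fundamental group of the once-punctured torus which covers the disc below the hole, and
`w 2`, `top` those for the disc above the hole. -/
structure Net (G : Type*) [Group G] (Γ : Pattern) where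
  w : Fin (Γ.n + 3) → G
  x : Fin Γ.e → G
  bot : G
  top : G
  base : w 0 = 1
  comm : ∀ i, x i * ((w (Γ.src i))⁻¹ * w (Γ.tgt i)) = (w (Γ.src i))⁻¹ * w (Γ.tgt i) * x i
  vertex : ∀ v, v ≠ 0 → v ≠ 1 → v ≠ 2 →
    ((Γ.rot v).map fun ε => if ε.2 then (x ε.1)⁻¹ else x ε.1).prod = 1
  vertexBot : ((Γ.rot 1).map fun ε => if ε.2 then (x ε.1)⁻¹ else x ε.1).prod = bot
  vertexTop : ((Γ.rot 2).map fun ε => if ε.2 then (x ε.1)⁻¹ else x ε.1).prod = top⁻¹

/-- The second peripheral element at the crossing number `i`. -/
def Net.step {G : Type*} [Group G] {Γ : Pattern} (N : Net G Γ) (i : Fin Γ.e) : G :=
  (N.w (Γ.src i))⁻¹ * N.w (Γ.tgt i)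

/-- Elements of a group which satisfy the relations of the fundamental group of the following
manifold.  Let `F` be a once-punctured torus with standard curves `a`, `b`.  In `F × [0, 1]`,
drill out for each letter of `L` a copy of the curve of the letter, at increasing heights.  The
elements `a i`, `b i` are the standard generators of the fibre group between the heights of
the letters number `i - 1` and `i`, and `m i` is the meridian of the curve number `i`. -/
structure Stack (G : Type*) [Group G] (L : List Letter) where
  a : Fin (L.length + 1) → G
  b : Fin (L.length + 1) → G
  m : Fin L.length → G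
  /-- Passing a curve `a` multiplies `b` by the meridian, which commutes with `a`. -/
  passA : ∀ i, (L.get i).second = false →
    a i.succ = a i.castSucc ∧ b i.succ = b i.castSucc * m i ∧
      m i * a i.castSucc = a i.castSucc * m i
  /-- Passing a curve `b` multiplies `a` by the inverse of the meridian, which commutes with
  `b`. -/
  passB : ∀ i, (L.get i).second = true →
    b i.succ = b i.castSucc ∧ a i.succ = a i.castSucc * (m i)⁻¹ ∧
      m i * b i.castSucc = b i.castSucc * m i

/-- The curve number `i`. -/
def Stack.curve {G : Type*} [Group G] {L : List Letter} (w : Stack G L) (i : Fin L.length) : G :=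
  if (L.get i).second then w.b i.castSucc else w.a i.castSucc

/-- The displacement condition: the displacement maps of the word carry the quarter turn from
`0` to `1` into the opposite quarter turn from `2` to `3`. -/
def Turning (L : List Letter) : Prop :=
  2 ≤ L.foldl (fun y ℓ => ℓ.low y) 0 ∧ L.foldl (fun y ℓ => ℓ.upp y) 1 ≤ 3

/-- The letter of a twist along the curve `a` with slope one. -/
def twA : Letter := ⟨false, some 1, some 1⟩

/-- The letter of a twist along the curve `b` with slope one. -/
def twB : Letter := ⟨true, some 1, some 1⟩

/-- The word of the full twist on three strands. -/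
def fullTwist : List Letter := [twA, twB, twA, twB, twA, twB]

/-- The boundary of the once-punctured torus which covers the disc below the hole. -/
def Net.bdry {G : Type*} [Group G] {Γ : Pattern} (N : Net G Γ) : G :=
  N.w 1 * N.bot * (N.w 1)⁻¹ * N.bot⁻¹

end Pool.Agent.Helper25.FT
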