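import Mathlib
import Pool.Agent.Helper71.TreeProof
import Pool.Agent.Helper25.FT.Defs

/-!
The rules which an alternating network imposes on the elements at its hole.
-/

set_option autoImplicit false

namespace Pool.Agent.Helper25.FT

open Pool.Agent.Helper31.OrderAct
open Pool.Agent.Helper31.TwistChain (dualHom)
open Pool.Agent.Helper71.Rot
open Pool.Agent.Helper71.Tree (fix_of_prod FillSpec)

/-- The rules at a point `s`: the vertices with the elements `1`, `A`, `A'` have the heights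
`s`, `A s`, `A' s`; at a highest vertex all currents point down and at a lowest vertex they point
up; `B` is the current through the vertex `A` and `B'` is minus the current through the vertex
`A'`. -/
structure Rules {Ω : Type*} [CompleteLinearOrder Ω] (A B A' B' : Ω ≃o Ω) (F : Set (Ω ≃o Ω))
    (s : Ω) : Prop where
  bmax : s ≤ A s → A' s ≤ A s → B s ≤ s
  bmin : A s ≤ s → A s ≤ A' s → s ≤ B s
  tmax : s ≤ A' s → A s ≤ A' s → s ≤ B' s
  tmin : A' s ≤ s → A' s ≤ A s → B' s ≤ s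
  bmax' : s < A s → A' s < A s → B s < s
  bmin' : A s < s → A s < A' s → s < B s
  tmax' : s < A' s → A s < A' s → s < B' s
  tmin' : A' s < s → A' s < A s → B' s < s
  tie : s < A s → A' s = A s → B s = s → B' s = s → False
  tie' : A s < s → A' s = A s → B s = s → B' s = s → False
  bal : A s = s → A' s = s → B s = s ∧ B' s = s ∧ ∀ g ∈ F, g s = s

section Dual

variable {Ω : Type*} [CompleteLinearOrder Ω] {A B A' B' : Ω ≃o Ω} {F : Set (Ω ≃o Ω)} {s : Ω}

lemma Rules.dual (h : Rules A B A' B' F s) :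
    Rules (Ω := Ωᵒᵈ) (dualHom A) (dualHom B) (dualHom A') (dualHom B') (dualHom '' F) s :=
  ⟨fun h1 h2 => h.bmin h1 h2, fun h1 h2 => h.bmax h1 h2, fun h1 h2 => h.tmin h1 h2,
    fun h1 h2 => h.tmax h1 h2, fun h1 h2 => h.bmin' h1 h2, fun h1 h2 => h.bmax' h1 h2,
    fun h1 h2 => h.tmin' h1 h2, fun h1 h2 => h.tmax' h1 h2,
    fun h1 h2 h3 h4 => h.tie' h1 h2 h3 h4, fun h1 h2 h3 h4 => h.tie h1 h2 h3 h4, fun h1 h2 => by
      obtain ⟨g1, g2, g3⟩ := h.bal h1 h2
      refine ⟨g1, g2, ?_⟩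
      rintro _ ⟨g, hg, rfl⟩
      exact g3 g hg⟩

end Dual

section Nets

variable {G : Type*} [Group G] {Γ : Pattern} (N : Net G Γ)

/-- The sign with which an edge end enters in the product of the currents at a vertex. -/
def cur {Ω : Type*} [CompleteLinearOrder Ω] (ρ : G →* (Ω ≃o Ω)) (ε : Fin Γ.e × Bool) : Ω ≃o Ω :=
  if ε.2 then (ρ (N.x ε.1))⁻¹ else ρ (N.x ε.1)

/-- The rules for the edges at a point. -/
def EdgeRule {Ω : Type*} [CompleteLinearOrder Ω] (ρ : G →* (Ω ≃o Ω)) (s : Ω) : Prop :=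
  ∀ i, (ρ (N.step i) s ≤ s → ρ (N.x i) s ≤ s) ∧ (s ≤ ρ (N.step i) s → s ≤ ρ (N.x i) s) ∧
    (ρ (N.x i) s = s → ρ (N.step i) s = s)

section One

variable {Ω : Type*} [CompleteLinearOrder Ω] (ρ : G →* (Ω ≃o Ω))

lemma map_prod (v : Fin (Γ.n + 3)) :
    ρ (((Γ.rot v).map fun ε => if ε.2 then (N.x ε.1)⁻¹ else N.x ε.1).prod) =
      ((Γ.rot v).map (cur N ρ)).prod := by
  rw [map_list_prod, List.map_map]
  congr 1
  apply List.map_congr_left
  intro ε _
  change ρ (if ε.2 then (N.x ε.1)⁻¹ else N.x ε.1) = (if ε.2 then (ρ (N.x ε.1))⁻¹ else ρ (N.x ε.1))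
  split_ifs
  · rw [map_inv]
  · rfl

lemma step_apply (s : Ω) (i : Fin Γ.e) :
    ρ (N.w (Γ.src i)) (ρ (N.step i) s) = ρ (N.w (Γ.tgt i)) s := by
  rw [← RelIso.mul_apply, ← map_mul, Net.step, mul_inv_cancel_left]

lemma step_le {s : Ω} {i : Fin Γ.e} : ρ (N.step i) s ≤ s ↔
    ρ (N.w (Γ.tgt i)) s ≤ ρ (N.w (Γ.src i)) s := by
  rw [← step_apply N ρ s i]
  exact (ρ (N.w (Γ.src i))).le_iff_le.symm

lemma step_ge {s : Ω} {i : Fin Γ.e} : s ≤ ρ (N.step i) s ↔
    ρ (N.w (Γ.src i)) s ≤ ρ (N.w (Γ.tgt i)) s := by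
  rw [← step_apply N ρ s i]
  exact (ρ (N.w (Γ.src i))).le_iff_le.symm

variable {N ρ} {s : Ω}

/-- At a highest vertex all currents point down. -/
lemma cur_le (hΓ : Γ.Valid) (he : EdgeRule N ρ s) {v : Fin (Γ.n + 3)}
    (hv : ∀ u, ρ (N.w u) s ≤ ρ (N.w v) s) {ε : Fin Γ.e × Bool} (hε : ε ∈ Γ.rot v) :
    cur N ρ ε s ≤ s := by
  obtain ⟨i, o⟩ := ε
  cases o with
  | false =>
    have h1 := ((hΓ.1 v i).1).mp hε
    change ρ (N.x i) s ≤ s
    apply (he i).1
    rw [step_le, h1]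
    exact hv _
  | true =>
    have h1 := ((hΓ.1 v i).2).mp hε
    change (ρ (N.x i))⁻¹ s ≤ s
    apply inv_le_of_ge
    apply (he i).2.1
    rw [step_ge, h1]
    exact hv _

lemma prod_le_of {l : List (Ω ≃o Ω)} (hl : ∀ x ∈ l, x s ≤ s) : l.prod s ≤ s := by
  induction l with
  | nil => exact le_refl _
  | cons a l ih =>
    rw [List.prod_cons, RelIso.mul_apply]
    exact (a.monotone (ih (fun x hx => hl x (by simp [hx])))).trans (hl a (by simp))

/-- The product of the currents at a highest vertex points down. -/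
lemma prod_le (hΓ : Γ.Valid) (he : EdgeRule N ρ s) {v : Fin (Γ.n + 3)}
    (hv : ∀ u, ρ (N.w u) s ≤ ρ (N.w v) s) : ((Γ.rot v).map (cur N ρ)).prod s ≤ s := by
  apply prod_le_of
  intro x hx
  obtain ⟨ε, h1, rfl⟩ := List.mem_map.mp hx
  exact cur_le hΓ he hv h1

/-- If the product does not point strictly down, the neighbours have the same height. -/
lemma spread (hΓ : Γ.Valid) (he : EdgeRule N ρ s) {v : Fin (Γ.n + 3)}
    (hv : ∀ u, ρ (N.w u) s ≤ ρ (N.w v) s) (hp : s ≤ ((Γ.rot v).map (cur N ρ)).prod s)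
    (i : Fin Γ.e) :
    (Γ.src i = v → ρ (N.w (Γ.tgt i)) s = ρ (N.w v) s) ∧
    (Γ.tgt i = v → ρ (N.w (Γ.src i)) s = ρ (N.w v) s) := by
  have hfix : ∀ ε ∈ Γ.rot v, cur N ρ ε s = s := by
    intro ε hε
    refine fix_of_prod (l := (Γ.rot v).map (cur N ρ)) ?_ hp (cur N ρ ε) (List.mem_map_of_mem hε)
    intro x hx
    obtain ⟨ε', h1, rfl⟩ := List.mem_map.mp hx
    exact cur_le hΓ he hv h1
  constructor
  · intro h1
    have h2 : ρ (N.x i) s = s := hfix (i, false) (((hΓ.1 v i).1).mpr h1)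
    have h3 := (he i).2.2 h2
    rw [← step_apply N ρ s i, h3, h1]
  · intro h1
    have h2 : (ρ (N.x i))⁻¹ s = s := hfix (i, true) (((hΓ.1 v i).2).mpr h1)
    have h5 := congrArg (⇑(ρ (N.x i))) h2
    rw [RelIso.apply_inv_self] at h5
    have h3 := (he i).2.2 h5.symm
    have h4 := step_apply N ρ s i
    rw [h3, h1] at h4
    exact h4

/-- The vertices of maximal height. -/
lemma all_top (hΓ : Γ.Valid) (he : EdgeRule N ρ s) {v₀ : Fin (Γ.n + 3)}
    (hv₀ : ∀ u, ρ (N.w u) s ≤ ρ (N.w v₀) s)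
    (hcl : ∀ v, ρ (N.w v) s = ρ (N.w v₀) s → s ≤ ((Γ.rot v).map (cur N ρ)).prod s) :
    ∀ v, ρ (N.w v) s = ρ (N.w v₀) s := by
  have hedge : ∀ i, ρ (N.w (Γ.src i)) s = ρ (N.w v₀) s ↔ ρ (N.w (Γ.tgt i)) s = ρ (N.w v₀) s := by
    intro i
    constructor
    · intro h1
      have h2 := (spread hΓ he (v := Γ.src i) (fun u => by rw [h1]; exact hv₀ u) (hcl _ h1) i).1 rfl
      rw [h2, h1]
    · intro h1
      have h2 := (spread hΓ he (v := Γ.tgt i) (fun u => by rw [h1]; exact hv₀ u) (hcl _ h1) i).2 rfl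
      rw [h2, h1]
  have hall : ∀ u v, Relation.EqvGen (fun u w => ∃ i : Fin Γ.e, Γ.src i = u ∧ Γ.tgt i = w) u v →
      (ρ (N.w u) s = ρ (N.w v₀) s ↔ ρ (N.w v) s = ρ (N.w v₀) s) := by
    intro u v huv
    induction huv with
    | rel u v h1 =>
      obtain ⟨i, rfl, rfl⟩ := h1
      exact hedge i
    | refl u => exact Iff.rfl
    | symm u v _ ih => exact ih.symm
    | trans u v w _ _ ih1 ih2 => exact ih1.trans ih2
  have h0 := (hall 0 v₀ (hΓ.2 v₀)).mpr rfl
  exact fun v => (hall 0 v (hΓ.2 v)).mp h0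

/-- The product of the currents at the vertices other than the marked ones is trivial. -/
lemma inner_prod {v : Fin (Γ.n + 3)} (h0 : v ≠ 0) (h1 : v ≠ 1) (h2 : v ≠ 2) :
    s ≤ ((Γ.rot v).map (cur N ρ)).prod s := by
  rw [← map_prod N ρ, N.vertex v h0 h1 h2, map_one]
  exact le_refl s

/-- One of the marked vertices is a highest vertex. -/
lemma marked_top (hΓ : Γ.Valid) (he : EdgeRule N ρ s) :
    ∃ v₀ : Fin (Γ.n + 3), (v₀ = 0 ∨ v₀ = 1 ∨ v₀ = 2) ∧ ∀ u, ρ (N.w u) s ≤ ρ (N.w v₀) s := by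
  obtain ⟨v₀, hv₀⟩ := Finite.exists_max (fun v => ρ (N.w v) s)
  by_cases h : ∃ v, (v = 0 ∨ v = 1 ∨ v = 2) ∧ ρ (N.w v) s = ρ (N.w v₀) s
  · obtain ⟨v, h1, h2⟩ := h
    exact ⟨v, h1, fun u => by rw [h2]; exact hv₀ u⟩
  · exfalso
    push Not at h
    have h1 := all_top hΓ he hv₀ (fun v hv => by
      apply inner_prod
      · rintro rfl; exact h 0 (by simp) hv
      · rintro rfl; exact h 1 (by simp) hv
      · rintro rfl; exact h 2 (by simp) hv)
    exact h 0 (by simp) (h1 0)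

/-- The part of the rules which concerns highest vertices. -/
structure Half (A B A' B' : Ω ≃o Ω) (s : Ω) : Prop where
  bmax : s ≤ A s → A' s ≤ A s → B s ≤ s
  tmax : s ≤ A' s → A s ≤ A' s → s ≤ B' s
  bmax' : s < A s → A' s < A s → B s < s
  tmax' : s < A' s → A s < A' s → s < B' s
  tie : s < A s → A' s = A s → B s = s → B' s = s → False

lemma height_zero : ρ (N.w 0) s = s := by
  rw [N.base, map_one]
  rfl

lemma half (hΓ : Γ.Valid) (he : EdgeRule N ρ s) :
    Half (ρ (N.w 1)) (ρ N.bot) (ρ (N.w 2)) (ρ N.top) s ∧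
    ∃ v₀ : Fin (Γ.n + 3), (v₀ = 0 ∨ v₀ = 1 ∨ v₀ = 2) ∧ ∀ u, ρ (N.w u) s ≤ ρ (N.w v₀) s := by
  obtain ⟨v₀, hm, hv₀⟩ := marked_top (N := N) (ρ := ρ) hΓ he
  have h0 := height_zero (N := N) (ρ := ρ) (s := s)
  have hB : ρ N.bot = ((Γ.rot 1).map (cur N ρ)).prod := by
    rw [← map_prod N ρ, N.vertexBot]
  have hT : (ρ N.top)⁻¹ = ((Γ.rot 2).map (cur N ρ)).prod := by
    rw [← map_prod N ρ, N.vertexTop, map_inv]
  have htop1 : s ≤ ρ (N.w 1) s → ρ (N.w 2) s ≤ ρ (N.w 1) s →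
      ∀ u, ρ (N.w u) s ≤ ρ (N.w 1) s := by
    intro h1 h2 u
    refine (hv₀ u).trans ?_
    rcases hm with rfl | rfl | rfl
    · rw [h0]; exact h1
    · exact le_refl _
    · exact h2
  have htop2 : s ≤ ρ (N.w 2) s → ρ (N.w 1) s ≤ ρ (N.w 2) s →
      ∀ u, ρ (N.w u) s ≤ ρ (N.w 2) s := by
    intro h1 h2 u
    refine (hv₀ u).trans ?_
    rcases hm with rfl | rfl | rfl
    · rw [h0]; exact h1
    · exact h2
    · exact le_refl _
  refine ⟨⟨?_, ?_, ?_, ?_, ?_⟩, v₀, hm, hv₀⟩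
  · intro h1 h2
    rw [hB]
    exact prod_le hΓ he (htop1 h1 h2)
  · intro h1 h2
    have h3 : (ρ N.top)⁻¹ s ≤ s := by
      rw [hT]
      exact prod_le hΓ he (htop2 h1 h2)
    have := inv_ge_of_le h3
    rwa [inv_inv] at this
  · intro h1 h2
    have h3 := htop1 h1.le h2.le
    have h4 : ρ N.bot s ≤ s := by
      rw [hB]
      exact prod_le hΓ he h3
    apply lt_of_le_of_ne h4
    intro h5
    have h6 := all_top hΓ he h3 (fun v hv => by
      by_cases e1 : v = 1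
      · subst e1
        rw [← hB]
        exact h5.ge
      · apply inner_prod ?_ e1 ?_
        · rintro rfl
          rw [h0] at hv
          exact absurd hv h1.ne
        · rintro rfl
          exact absurd hv h2.ne) 0
    rw [h0] at h6
    exact absurd h6 h1.ne
  · intro h1 h2
    have h3 := htop2 h1.le h2.le
    have h4 : (ρ N.top)⁻¹ s ≤ s := by
      rw [hT]
      exact prod_le hΓ he h3
    have h4' : s ≤ ρ N.top s := by
      have := inv_ge_of_le h4
      rwa [inv_inv] at this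
    apply lt_of_le_of_ne h4'
    intro h5
    have h5' : (ρ N.top)⁻¹ s = s := inv_fix h5.symm
    have h6 := all_top hΓ he h3 (fun v hv => by
      by_cases e1 : v = 2
      · subst e1
        rw [← hT]
        exact h5'.ge
      · apply inner_prod ?_ ?_ e1
        · rintro rfl
          rw [h0] at hv
          exact absurd hv h1.ne
        · rintro rfl
          exact absurd hv h2.ne) 0
    rw [h0] at h6
    exact absurd h6 h1.ne
  · intro h1 h2 h4 h5
    have h3 := htop1 h1.le h2.le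
    have h5' : (ρ N.top)⁻¹ s = s := inv_fix h5
    have h6 := all_top hΓ he h3 (fun v hv => by
      by_cases e1 : v = 1
      · subst e1
        rw [← hB]
        exact h4.ge
      · by_cases e2 : v = 2
        · subst e2
          rw [← hT]
          exact h5'.ge
        · apply inner_prod ?_ e1 e2
          rintro rfl
          rw [h0] at hv
          exact absurd hv h1.ne) 0
    rw [h0] at h6
    exact absurd h6 h1.ne

end One

section Two

variable {Ω : Type*} [CompleteLinearOrder Ω] {ρ : G →* (Ω ≃o Ω)} {N} {s : Ω}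

lemma EdgeRule.dual (he : EdgeRule N ρ s) :
    EdgeRule (Ω := Ωᵒᵈ) N (dualHom.comp ρ) s :=
  fun i => ⟨fun h => (he i).2.1 h, fun h => (he i).1 h, fun h => (he i).2.2 h⟩

/-- The rules at a point where all the edges obey their rules. -/
theorem rules (hΓ : Γ.Valid) (he : EdgeRule N ρ s) (F : Set (Ω ≃o Ω))
    (hF : (∀ v, ρ (N.w v) s = s) → (∀ i, ρ (N.x i) s = s) → ∀ g ∈ F, g s = s) :
    Rules (ρ (N.w 1)) (ρ N.bot) (ρ (N.w 2)) (ρ N.top) F s := by
  obtain ⟨h, v₀, hm, hv₀⟩ := half (N := N) (ρ := ρ) hΓ he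
  obtain ⟨hd, v₁, hm', hv₁⟩ := half (Ω := Ωᵒᵈ) (N := N) (ρ := dualHom.comp ρ) (s := s) hΓ he.dual
  refine ⟨h.bmax, hd.bmax, h.tmax, hd.tmax, h.bmax', hd.bmax', h.tmax', hd.tmax', h.tie, hd.tie,
    ?_⟩
  intro h1 h2
  have h0 := height_zero (N := N) (ρ := ρ) (s := s)
  have up : ∀ u, ρ (N.w u) s ≤ s := by
    intro u
    refine (hv₀ u).trans ?_
    rcases hm with rfl | rfl | rfl
    · rw [h0]
    · rw [h1]
    · rw [h2]
  have dn : ∀ u, s ≤ ρ (N.w u) s := by
    intro u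
    have h3 : ρ (N.w v₁) s ≤ ρ (N.w u) s := hv₁ u
    refine le_trans ?_ h3
    rcases hm' with rfl | rfl | rfl
    · rw [h0]
    · rw [h1]
    · rw [h2]
  have hw : ∀ u, ρ (N.w u) s = s := fun u => le_antisymm (up u) (dn u)
  have hst : ∀ i, ρ (N.step i) s = s := by
    intro i
    rw [Net.step, map_mul, map_inv, RelIso.mul_apply, hw, inv_fix (hw _)]
  have hx : ∀ i, ρ (N.x i) s = s := fun i =>
    le_antisymm ((he i).1 (hst i).le) ((he i).2.1 (hst i).ge)
  refine ⟨?_, ?_, hF hw hx⟩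
  · exact le_antisymm (h.bmax (by rw [h1]) (by rw [h1, h2])) (hd.bmax (by
      change ρ (N.w 1) s ≤ s
      rw [h1]) (by
      change ρ (N.w 1) s ≤ ρ (N.w 2) s
      rw [h1, h2]))
  · exact le_antisymm (hd.tmax (by
      change ρ (N.w 2) s ≤ s
      rw [h2]) (by
      change ρ (N.w 2) s ≤ ρ (N.w 1) s
      rw [h1, h2])) (h.tmax (by rw [h2]) (by rw [h1, h2]))

end Two

end Nets

end Pool.Agent.Helper25.FT
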