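import Mathlib
import Pool.Agent.Helper25.FT.Rules

/-!
The boundary of the fibre, and elements between `1` and the boundary.
-/

set_option autoImplicit false

namespace Pool.Agent.Helper25.FT

open Pool.Agent.Helper31.OrderAct
open Pool.Agent.Helper31.TwistChain (dualHom)
open Pool.Agent.Helper71.Rot

variable {Ω : Type*} [CompleteLinearOrder Ω] {A B τ : Ω ≃o Ω}

/-- `τ` lies between `1` and `d`. -/
structure Btw (τ d : Ω ≃o Ω) : Prop where
  comm : τ * d = d * τ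
  up : ∀ s, s ≤ d s → s ≤ τ s ∧ τ s ≤ d s
  dn : ∀ s, d s ≤ s → τ s ≤ s ∧ d s ≤ τ s

lemma Btw.dual {d : Ω ≃o Ω} (h : Btw τ d) : Btw (Ω := Ωᵒᵈ) (dualHom τ) (dualHom d) :=
  ⟨by rw [← map_mul, h.comm, map_mul], fun s hs => h.dn s hs, fun s hs => h.up s hs⟩

lemma Btw.fix {d : Ω ≃o Ω} (h : Btw τ d) {s : Ω} (hs : d s = s) : τ s = s :=
  le_antisymm (h.dn s hs.le).1 (h.up s hs.ge).1

/-- The boundary of the fibre. -/
def bdy {Γ : Type*} [Group Γ] (A B : Γ) : Γ := A * B * A⁻¹ * B⁻¹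

lemma map_bdy {Γ Γ' : Type*} [Group Γ] [Group Γ'] (φ : Γ →* Γ') (A B : Γ) :
    φ (bdy A B) = bdy (φ A) (φ B) := by
  simp [bdy]

lemma bdy_dual : bdy (dualHom A) (dualHom B) = dualHom (bdy A B) := (map_bdy dualHom A B).symm

end Pool.Agent.Helper25.FT
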