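import Mathlib
import Pool.Agent.Helper25.FT.Defs

/-!
The full twist, and examples of words which satisfy the displacement condition.
-/

set_option autoImplicit false

namespace Pool.Agent.Helper25.FT

open Pool.Agent.Helper71.Rot

/-- The letter `a` with bounds. -/
def la (k l : ℤ) : Letter := ⟨false, some k, some l⟩

/-- The letter `b` with bounds. -/
def lb (k l : ℤ) : Letter := ⟨true, some k, some l⟩

lemma fwd (x y : ℝ) (j : ℤ) (h1 : 2 * (j : ℝ) ≤ x) (h2 : x < 2 * j + 2)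
    (h : y = 2 * j + min (2 * (x - 2 * j)) (min (x - 2 * j + 1 / 2) (1 + (x - 2 * j) / 2))) :
    turnFwd x = y := by
  have hf : ⌊x / 2⌋ = j := by
    rw [Int.floor_eq_iff]
    constructor <;> linarith
  rw [turnFwd, hf, rho, h]

lemma bwd (x y : ℝ) (j : ℤ) (h1 : 2 * (j : ℝ) ≤ x) (h2 : x < 2 * j + 2)
    (h : y = 2 * j + max ((x - 2 * j) / 2) (max (x - 2 * j - 1 / 2) (2 * (x - 2 * j) - 2))) :
    turnBwd x = y := by
  have hf : ⌊x / 2⌋ = j := by
    rw [Int.floor_eq_iff]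
    constructor <;> linarith
  rw [turnBwd, hf, rhoInv, h]

lemma la_low (k l : ℤ) (x : ℝ) : (la k l).low x = turn k x := rfl

lemma la_upp (k l : ℤ) (x : ℝ) : (la k l).upp x = turn l x := rfl

lemma lb_low (k l : ℤ) (x : ℝ) : (lb k l).low x = turn k (x + 1) - 1 := rfl

lemma lb_upp (k l : ℤ) (x : ℝ) : (lb k l).upp x = turn l (x + 1) - 1 := rfl

/-- The full twist satisfies the displacement condition. -/
theorem turning_fullTwist : Turning fullTwist := by
  have e : fullTwist = [la 1 1, lb 1 1, la 1 1, lb 1 1, la 1 1, lb 1 1] := rfl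
  rw [e]
  have low0 : (la 1 1).low ((0) : ℝ) = (0) := by
    have g0 : turnFwd ((0) : ℝ) = (0) := by apply fwd _ _ (0) <;> norm_num
    rw [la_low]
    change turnFwd ((((0) : ℝ))) = _
    rw [g0]
  have low1 : (lb 1 1).low ((0) : ℝ) = (1 / 2) := by
    have g0 : turnFwd ((1) : ℝ) = (3 / 2) := by apply fwd _ _ (0) <;> norm_num
    rw [lb_low, show ((0) : ℝ) + 1 = (1) by norm_num]
    change turnFwd ((((1) : ℝ))) - 1 = _
    rw [g0]
    norm_num
  have low2 : (la 1 1).low ((1 / 2) : ℝ) = (1) := by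
    have g0 : turnFwd ((1 / 2) : ℝ) = (1) := by apply fwd _ _ (0) <;> norm_num
    rw [la_low]
    change turnFwd ((((1 / 2) : ℝ))) = _
    rw [g0]
  have low3 : (lb 1 1).low ((1) : ℝ) = (1) := by
    have g0 : turnFwd ((2) : ℝ) = (2) := by apply fwd _ _ (1) <;> norm_num
    rw [lb_low, show ((1) : ℝ) + 1 = (2) by norm_num]
    change turnFwd ((((2) : ℝ))) - 1 = _
    rw [g0]
    norm_num
  have low4 : (la 1 1).low ((1) : ℝ) = (3 / 2) := by
    have g0 : turnFwd ((1) : ℝ) = (3 / 2) := by apply fwd _ _ (0) <;> norm_num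
    rw [la_low]
    change turnFwd ((((1) : ℝ))) = _
    rw [g0]
  have low5 : (lb 1 1).low ((3 / 2) : ℝ) = (2) := by
    have g0 : turnFwd ((5 / 2) : ℝ) = (3) := by apply fwd _ _ (1) <;> norm_num
    rw [lb_low, show ((3 / 2) : ℝ) + 1 = (5 / 2) by norm_num]
    change turnFwd ((((5 / 2) : ℝ))) - 1 = _
    rw [g0]
    norm_num
  have upp0 : (la 1 1).upp ((1) : ℝ) = (3 / 2) := by
    have g0 : turnFwd ((1) : ℝ) = (3 / 2) := by apply fwd _ _ (0) <;> norm_num
    rw [la_upp]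
    change turnFwd ((((1) : ℝ))) = _
    rw [g0]
  have upp1 : (lb 1 1).upp ((3 / 2) : ℝ) = (2) := by
    have g0 : turnFwd ((5 / 2) : ℝ) = (3) := by apply fwd _ _ (1) <;> norm_num
    rw [lb_upp, show ((3 / 2) : ℝ) + 1 = (5 / 2) by norm_num]
    change turnFwd ((((5 / 2) : ℝ))) - 1 = _
    rw [g0]
    norm_num
  have upp2 : (la 1 1).upp ((2) : ℝ) = (2) := by
    have g0 : turnFwd ((2) : ℝ) = (2) := by apply fwd _ _ (1) <;> norm_num
    rw [la_upp]
    change turnFwd ((((2) : ℝ))) = _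
    rw [g0]
  have upp3 : (lb 1 1).upp ((2) : ℝ) = (5 / 2) := by
    have g0 : turnFwd ((3) : ℝ) = (7 / 2) := by apply fwd _ _ (1) <;> norm_num
    rw [lb_upp, show ((2) : ℝ) + 1 = (3) by norm_num]
    change turnFwd ((((3) : ℝ))) - 1 = _
    rw [g0]
    norm_num
  have upp4 : (la 1 1).upp ((5 / 2) : ℝ) = (3) := by
    have g0 : turnFwd ((5 / 2) : ℝ) = (3) := by apply fwd _ _ (1) <;> norm_num
    rw [la_upp]
    change turnFwd ((((5 / 2) : ℝ))) = _
    rw [g0]
  have upp5 : (lb 1 1).upp ((3) : ℝ) = (3) := by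
    have g0 : turnFwd ((4) : ℝ) = (4) := by apply fwd _ _ (2) <;> norm_num
    rw [lb_upp, show ((3) : ℝ) + 1 = (4) by norm_num]
    change turnFwd ((((4) : ℝ))) - 1 = _
    rw [g0]
    norm_num
  constructor
  · simp only [List.foldl_cons, List.foldl_nil]
    have h0 : (0 : ℝ) = (0) := rfl
    rw [low0, low1, low2, low3, low4, low5]
  · simp only [List.foldl_cons, List.foldl_nil]
    rw [upp0, upp1, upp2, upp3, upp4, upp5]

/-- The elements of the full twist. -/
def fullStack {G : Type*} [Group G] (a b : G) : Stack G fullTwist where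
  a := ![a, a, b⁻¹, b⁻¹, a⁻¹ * b⁻¹, a⁻¹ * b⁻¹, b * a⁻¹ * b⁻¹]
  b := ![b, b * a, b * a, b * a * b⁻¹, b * a * b⁻¹, b * a * b⁻¹ * a⁻¹ * b⁻¹,
    b * a * b⁻¹ * a⁻¹ * b⁻¹]
  m := ![a, b * a, b⁻¹, b * a * b⁻¹, a⁻¹ * b⁻¹, b * a * b⁻¹ * a⁻¹ * b⁻¹]
  passA := by
    intro i hi
    fin_cases i
    · exact ⟨rfl, rfl, rfl⟩
    · exact absurd hi (by decide)
    · exact ⟨rfl, rfl, rfl⟩
    · exact absurd hi (by decide)
    · refine ⟨rfl, ?_, rfl⟩
      change b * a * b⁻¹ * a⁻¹ * b⁻¹ = b * a * b⁻¹ * (a⁻¹ * b⁻¹)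
      group
    · exact absurd hi (by decide)
  passB := by
    intro i hi
    fin_cases i
    · exact absurd hi (by decide)
    · refine ⟨rfl, ?_, rfl⟩
      change b⁻¹ = a * (b * a)⁻¹
      group
    · exact absurd hi (by decide)
    · refine ⟨rfl, ?_, rfl⟩
      change a⁻¹ * b⁻¹ = b⁻¹ * (b * a * b⁻¹)⁻¹
      group
    · exact absurd hi (by decide)
    · refine ⟨rfl, ?_, rfl⟩
      change b * a⁻¹ * b⁻¹ = a⁻¹ * b⁻¹ * (b * a * b⁻¹ * a⁻¹ * b⁻¹)⁻¹
      group

/-- In the full twist all meridians are equal to the curves. -/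
theorem fullStack_m {G : Type*} [Group G] (a b : G) (i : Fin fullTwist.length) :
    (fullStack a b).m i = (fullStack a b).curve i := by
  fin_cases i <;> rfl

/-- The action of the full twist on the generators. -/
theorem fullStack_last {G : Type*} [Group G] (a b : G) :
    (fullStack a b).a 0 = a ∧ (fullStack a b).b 0 = b ∧
    (fullStack a b).a (Fin.last _) = b * a⁻¹ * b⁻¹ ∧
    (fullStack a b).b (Fin.last _) = b * a * b⁻¹ * a⁻¹ * b⁻¹ := ⟨rfl, rfl, rfl, rfl⟩

/-- The word `b a ^ r b a b` with any `r` which is at least `1`. -/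
theorem turning_infinite : Turning [lb 1 1, ⟨false, some 1, none⟩, lb 1 1, la 1 1, lb 1 1] := by
  have low0 : (lb 1 1).low ((0) : ℝ) = (1 / 2) := by
    have g0 : turnFwd ((1) : ℝ) = (3 / 2) := by apply fwd _ _ (0) <;> norm_num
    rw [lb_low, show ((0) : ℝ) + 1 = (1) by norm_num]
    change turnFwd ((((1) : ℝ))) - 1 = _
    rw [g0]
    norm_num
  have low1 : (⟨false, some 1, none⟩ : Letter).low ((1 / 2) : ℝ) = (1) := by
    have g0 : turnFwd ((1 / 2) : ℝ) = (1) := by apply fwd _ _ (0) <;> norm_num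
    change turnFwd ((1 / 2) : ℝ) = _
    rw [g0]
  have low2 : (lb 1 1).low ((1) : ℝ) = (1) := by
    have g0 : turnFwd ((2) : ℝ) = (2) := by apply fwd _ _ (1) <;> norm_num
    rw [lb_low, show ((1) : ℝ) + 1 = (2) by norm_num]
    change turnFwd ((((2) : ℝ))) - 1 = _
    rw [g0]
    norm_num
  have low3 : (la 1 1).low ((1) : ℝ) = (3 / 2) := by
    have g0 : turnFwd ((1) : ℝ) = (3 / 2) := by apply fwd _ _ (0) <;> norm_num
    rw [la_low]
    change turnFwd ((((1) : ℝ))) = _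
    rw [g0]
  have low4 : (lb 1 1).low ((3 / 2) : ℝ) = (2) := by
    have g0 : turnFwd ((5 / 2) : ℝ) = (3) := by apply fwd _ _ (1) <;> norm_num
    rw [lb_low, show ((3 / 2) : ℝ) + 1 = (5 / 2) by norm_num]
    change turnFwd ((((5 / 2) : ℝ))) - 1 = _
    rw [g0]
    norm_num
  have upp0 : (lb 1 1).upp ((1) : ℝ) = (1) := by
    have g0 : turnFwd ((2) : ℝ) = (2) := by apply fwd _ _ (1) <;> norm_num
    rw [lb_upp, show ((1) : ℝ) + 1 = (2) by norm_num]
    change turnFwd ((((2) : ℝ))) - 1 = _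
    rw [g0]
    norm_num
  have upp1 : (⟨false, some 1, none⟩ : Letter).upp ((1) : ℝ) = (2) := by
    change 2 * (⌈((1) : ℝ) / 2⌉ : ℝ) = _
    have : ⌈((1) : ℝ) / 2⌉ = 1 := by
      rw [Int.ceil_eq_iff]
      constructor <;> norm_num
    rw [this]
    norm_num
  have upp2 : (lb 1 1).upp ((2) : ℝ) = (5 / 2) := by
    have g0 : turnFwd ((3) : ℝ) = (7 / 2) := by apply fwd _ _ (1) <;> norm_num
    rw [lb_upp, show ((2) : ℝ) + 1 = (3) by norm_num]
    change turnFwd ((((3) : ℝ))) - 1 = _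
    rw [g0]
    norm_num
  have upp3 : (la 1 1).upp ((5 / 2) : ℝ) = (3) := by
    have g0 : turnFwd ((5 / 2) : ℝ) = (3) := by apply fwd _ _ (1) <;> norm_num
    rw [la_upp]
    change turnFwd ((((5 / 2) : ℝ))) = _
    rw [g0]
  have upp4 : (lb 1 1).upp ((3) : ℝ) = (3) := by
    have g0 : turnFwd ((4) : ℝ) = (4) := by apply fwd _ _ (2) <;> norm_num
    rw [lb_upp, show ((3) : ℝ) + 1 = (4) by norm_num]
    change turnFwd ((((4) : ℝ))) - 1 = _
    rw [g0]
    norm_num
  constructor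
  · simp only [List.foldl_cons, List.foldl_nil]
    have h0 : (0 : ℝ) = (0) := rfl
    rw [low0, low1, low2, low3, low4]
  · simp only [List.foldl_cons, List.foldl_nil]
    rw [upp0, upp1, upp2, upp3, upp4]


/-- A full twist followed by `b ^ 2 a ^ (-1) b ^ r a ^ (-1) b ^ 2` with `r` between `-1` and
`0`: a word with a twist region which is not alternating. -/
theorem turning_example : Turning [la (1) (1), lb (1) (1), la (1) (1), lb (1) (1), la (1) (1), lb (1) (1), lb (2) (2), la (-1) (-1), lb (-1) (0), la (-1) (-1), lb (2) (2)] := by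
  have low0 : (la (1) (1)).low ((0) : ℝ) = (0) := by
    have g0 : turnFwd ((0) : ℝ) = (0) := by apply fwd _ _ (0) <;> norm_num
    rw [la_low]
    change turnFwd (((0) : ℝ)) = _
    rw [g0]
  have low1 : (lb (1) (1)).low ((0) : ℝ) = (1 / 2) := by
    have g0 : turnFwd ((1) : ℝ) = (3 / 2) := by apply fwd _ _ (0) <;> norm_num
    rw [lb_low, show ((0) : ℝ) + 1 = (1) by norm_num]
    change turnFwd (((1) : ℝ)) - 1 = _
    rw [g0]
    norm_num
  have low2 : (la (1) (1)).low ((1 / 2) : ℝ) = (1) := by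
    have g0 : turnFwd ((1 / 2) : ℝ) = (1) := by apply fwd _ _ (0) <;> norm_num
    rw [la_low]
    change turnFwd (((1 / 2) : ℝ)) = _
    rw [g0]
  have low3 : (lb (1) (1)).low ((1) : ℝ) = (1) := by
    have g0 : turnFwd ((2) : ℝ) = (2) := by apply fwd _ _ (1) <;> norm_num
    rw [lb_low, show ((1) : ℝ) + 1 = (2) by norm_num]
    change turnFwd (((2) : ℝ)) - 1 = _
    rw [g0]
    norm_num
  have low4 : (la (1) (1)).low ((1) : ℝ) = (3 / 2) := by
    have g0 : turnFwd ((1) : ℝ) = (3 / 2) := by apply fwd _ _ (0) <;> norm_num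
    rw [la_low]
    change turnFwd (((1) : ℝ)) = _
    rw [g0]
  have low5 : (lb (1) (1)).low ((3 / 2) : ℝ) = (2) := by
    have g0 : turnFwd ((5 / 2) : ℝ) = (3) := by apply fwd _ _ (1) <;> norm_num
    rw [lb_low, show ((3 / 2) : ℝ) + 1 = (5 / 2) by norm_num]
    change turnFwd (((5 / 2) : ℝ)) - 1 = _
    rw [g0]
    norm_num
  have low6 : (lb (2) (2)).low ((2) : ℝ) = (11 / 4) := by
    have g0 : turnFwd ((3) : ℝ) = (7 / 2) := by apply fwd _ _ (1) <;> norm_num
    have g1 : turnFwd ((7 / 2) : ℝ) = (15 / 4) := by apply fwd _ _ (1) <;> norm_num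
    rw [lb_low, show ((2) : ℝ) + 1 = (3) by norm_num]
    change turnFwd (turnFwd (((3) : ℝ))) - 1 = _
    rw [g0, g1]
    norm_num
  have low7 : (la (-1) (-1)).low ((11 / 4) : ℝ) = (19 / 8) := by
    have g0 : turnBwd ((11 / 4) : ℝ) = (19 / 8) := by apply bwd _ _ (1) <;> norm_num
    rw [la_low]
    change turnBwd (((11 / 4) : ℝ)) = _
    rw [g0]
  have low8 : (lb (-1) (0)).low ((19 / 8) : ℝ) = (15 / 8) := by
    have g0 : turnBwd ((27 / 8) : ℝ) = (23 / 8) := by apply bwd _ _ (1) <;> norm_num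
    rw [lb_low, show ((19 / 8) : ℝ) + 1 = (27 / 8) by norm_num]
    change turnBwd (((27 / 8) : ℝ)) - 1 = _
    rw [g0]
    norm_num
  have low9 : (la (-1) (-1)).low ((15 / 8) : ℝ) = (7 / 4) := by
    have g0 : turnBwd ((15 / 8) : ℝ) = (7 / 4) := by apply bwd _ _ (0) <;> norm_num
    rw [la_low]
    change turnBwd (((15 / 8) : ℝ)) = _
    rw [g0]
  have low10 : (lb (2) (2)).low ((7 / 4) : ℝ) = (21 / 8) := by
    have g0 : turnFwd ((11 / 4) : ℝ) = (13 / 4) := by apply fwd _ _ (1) <;> norm_num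
    have g1 : turnFwd ((13 / 4) : ℝ) = (29 / 8) := by apply fwd _ _ (1) <;> norm_num
    rw [lb_low, show ((7 / 4) : ℝ) + 1 = (11 / 4) by norm_num]
    change turnFwd (turnFwd (((11 / 4) : ℝ))) - 1 = _
    rw [g0, g1]
    norm_num
  have upp0 : (la (1) (1)).upp ((1) : ℝ) = (3 / 2) := by
    have g0 : turnFwd ((1) : ℝ) = (3 / 2) := by apply fwd _ _ (0) <;> norm_num
    rw [la_upp]
    change turnFwd (((1) : ℝ)) = _
    rw [g0]
  have upp1 : (lb (1) (1)).upp ((3 / 2) : ℝ) = (2) := by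
    have g0 : turnFwd ((5 / 2) : ℝ) = (3) := by apply fwd _ _ (1) <;> norm_num
    rw [lb_upp, show ((3 / 2) : ℝ) + 1 = (5 / 2) by norm_num]
    change turnFwd (((5 / 2) : ℝ)) - 1 = _
    rw [g0]
    norm_num
  have upp2 : (la (1) (1)).upp ((2) : ℝ) = (2) := by
    have g0 : turnFwd ((2) : ℝ) = (2) := by apply fwd _ _ (1) <;> norm_num
    rw [la_upp]
    change turnFwd (((2) : ℝ)) = _
    rw [g0]
  have upp3 : (lb (1) (1)).upp ((2) : ℝ) = (5 / 2) := by
    have g0 : turnFwd ((3) : ℝ) = (7 / 2) := by apply fwd _ _ (1) <;> norm_num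
    rw [lb_upp, show ((2) : ℝ) + 1 = (3) by norm_num]
    change turnFwd (((3) : ℝ)) - 1 = _
    rw [g0]
    norm_num
  have upp4 : (la (1) (1)).upp ((5 / 2) : ℝ) = (3) := by
    have g0 : turnFwd ((5 / 2) : ℝ) = (3) := by apply fwd _ _ (1) <;> norm_num
    rw [la_upp]
    change turnFwd (((5 / 2) : ℝ)) = _
    rw [g0]
  have upp5 : (lb (1) (1)).upp ((3) : ℝ) = (3) := by
    have g0 : turnFwd ((4) : ℝ) = (4) := by apply fwd _ _ (2) <;> norm_num
    rw [lb_upp, show ((3) : ℝ) + 1 = (4) by norm_num]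
    change turnFwd (((4) : ℝ)) - 1 = _
    rw [g0]
    norm_num
  have upp6 : (lb (2) (2)).upp ((3) : ℝ) = (3) := by
    have g0 : turnFwd ((4) : ℝ) = (4) := by apply fwd _ _ (2) <;> norm_num
    have g1 : turnFwd ((4) : ℝ) = (4) := by apply fwd _ _ (2) <;> norm_num
    rw [lb_upp, show ((3) : ℝ) + 1 = (4) by norm_num]
    change turnFwd (turnFwd (((4) : ℝ))) - 1 = _
    rw [g0, g1]
    norm_num
  have upp7 : (la (-1) (-1)).upp ((3) : ℝ) = (5 / 2) := by
    have g0 : turnBwd ((3) : ℝ) = (5 / 2) := by apply bwd _ _ (1) <;> norm_num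
    rw [la_upp]
    change turnBwd (((3) : ℝ)) = _
    rw [g0]
  have upp8 : (lb (-1) (0)).upp ((5 / 2) : ℝ) = (5 / 2) := by
    rw [lb_upp, show ((5 / 2) : ℝ) + 1 = (7 / 2) by norm_num]
    change ((7 / 2) : ℝ) - 1 = _
    norm_num
  have upp9 : (la (-1) (-1)).upp ((5 / 2) : ℝ) = (9 / 4) := by
    have g0 : turnBwd ((5 / 2) : ℝ) = (9 / 4) := by apply bwd _ _ (1) <;> norm_num
    rw [la_upp]
    change turnBwd (((5 / 2) : ℝ)) = _
    rw [g0]
  have upp10 : (lb (2) (2)).upp ((9 / 4) : ℝ) = (45 / 16) := by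
    have g0 : turnFwd ((13 / 4) : ℝ) = (29 / 8) := by apply fwd _ _ (1) <;> norm_num
    have g1 : turnFwd ((29 / 8) : ℝ) = (61 / 16) := by apply fwd _ _ (1) <;> norm_num
    rw [lb_upp, show ((9 / 4) : ℝ) + 1 = (13 / 4) by norm_num]
    change turnFwd (turnFwd (((13 / 4) : ℝ))) - 1 = _
    rw [g0, g1]
    norm_num
  constructor
  · simp only [List.foldl_cons, List.foldl_nil]
    have h0 : (0 : ℝ) = (0) := rfl
    rw [low0, low1, low2, low3, low4, low5, low6, low7, low8, low9, low10]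
    norm_num
  · simp only [List.foldl_cons, List.foldl_nil]
    rw [upp0, upp1, upp2, upp3, upp4, upp5, upp6, upp7, upp8, upp9, upp10]
    norm_num

end Pool.Agent.Helper25.FT
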