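import Mathlib
import Pool.Agent.Helper71.RotDegen
import Pool.Agent.Helper25.FT.Bdy

/-!
The effect of bounded twists on single directions, and the refined positions of arcs.
-/

set_option autoImplicit false

namespace Pool.Agent.Helper25.FT

open Pool.Agent.Helper31.OrderAct
open Pool.Agent.Helper31.TwistChain (dualHom)
open Pool.Agent.Helper71.Rot

section Push

variable {Ω : Type*} [CompleteLinearOrder Ω] {lo hi : Option ℤ}

lemma Bd_invRel (lo hi : Option ℤ) : InvRel (Γ := Ω ≃o Ω) (Bd lo hi) :=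
  ⟨fun hm => hm.comm, fun hm => hm.inv, fun g hm => hm.conj g⟩

/-- The bounds with the opposite signs. -/
def negB (o : Option ℤ) : Option ℤ := o.map (fun k => -k)

lemma negB_some {o : Option ℤ} {k : ℤ} (h : negB o = some k) : o = some (-k) := by
  cases o with
  | none => exact absurd h (by simp [negB])
  | some l =>
    have : -l = k := by simpa [negB] using h
    rw [← this, neg_neg]

lemma Bd_rev {m a : Ω ≃o Ω} (hb : Bd lo hi m a) : Bd (negB hi) (negB lo) m⁻¹ a := by
  refine ⟨(show Commute m a from hb.comm).inv_left.eq, ?_, ?_, ?_⟩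
  · intro k hk
    exact hb.upper _ (negB_some hk)
  · intro k hk
    rw [inv_inv]
    have := hb.lower _ (negB_some hk)
    rwa [neg_neg] at this
  · obtain ⟨k, h | h⟩ := hb.some_bd
    · refine ⟨-k, Or.inr ?_⟩
      rw [inv_inv]
      exact h
    · refine ⟨-k, Or.inl ?_⟩
      rw [neg_neg]
      exact h

variable {f f' : (Ω ≃o Ω) × (Ω ≃o Ω)} {s : Ω}

lemma LetA_rev (hl : LetA lo hi f f') : LetA (negB hi) (negB lo) f' f := by
  obtain ⟨m, hb, e1, e2⟩ := hl
  refine ⟨m⁻¹, ?_, e1.symm, ?_⟩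
  · rw [e1]
    exact Bd_rev hb
  · rw [e2, inv_inv, mul_inv_cancel_left]

variable {k : ℤ}

/-- If all directions in `(x, x + 2)` move `s` weakly down, the twist pushes `V x s` up. -/
theorem pushA_up (hl : LetA (some k) hi f f') {x : ℝ} (hx : Dy x)
    (hy : ∀ y, Dy y → x < y → y < x + 2 → V f y s ≤ s) (g1 : s ≤ V f x s) :
    s ≤ V f' ((T ^ k : Equiv.Perm ℝ) x) s := by
  have hl' : LetP (Bd (some k) hi) f f' := hl
  obtain ⟨w1, w2⟩ := window x
  rcases lt_or_eq_of_le w1 with w1 | w1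
  · set j : ℤ := ⌊x / 2⌋ + 1 with hj
    have hjr : (j : ℝ) = ⌊x / 2⌋ + 1 := by rw [hj]; push_cast; ring
    obtain ⟨m, υ, hm, _, _, i, l, e3, e4⟩ := hl'.window (Bd_invRel (some k) hi) hx k (j := j)
      (by rw [hjr]; linarith) (by rw [hjr]; linarith)
    have hα := hy (2 * j) (by have := Dy.int (2 * j); push_cast at this; exact this)
      (by rw [hjr]; linarith) (by rw [hjr]; linarith)
    set α := V f (2 * j)
    have hc : Commute m α := hm.comm
    have ec : α ^ (-k) * m * (α ^ k * m⁻¹ * υ) = υ := by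
      have : m * α ^ k = α ^ k * m := (hc.zpow_right k).eq
      calc α ^ (-k) * m * (α ^ k * m⁻¹ * υ) = α ^ (-k) * (m * α ^ k) * m⁻¹ * υ := by group
        _ = υ := by rw [this]; group
    have hpos := hm.lower k rfl
    rw [e3] at g1
    rw [e4]
    by_contra hn
    push Not at hn
    have := hpos.core_gt hα _ hn
    rw [ec] at this
    exact absurd g1 (not_le.mpr this)
  · rw [← w1, Tz_even, hl'.even (Bd_invRel (some k) hi)]
    rw [← w1] at g1
    exact g1

theorem pushA_upS (hl : LetA (some k) hi f f') {x : ℝ} (hx : Dy x)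
    (hy : ∀ y, Dy y → x < y → y < x + 2 → V f y s ≤ s) (g1 : s < V f x s) :
    s < V f' ((T ^ k : Equiv.Perm ℝ) x) s := by
  have hl' : LetP (Bd (some k) hi) f f' := hl
  obtain ⟨w1, w2⟩ := window x
  rcases lt_or_eq_of_le w1 with w1 | w1
  · set j : ℤ := ⌊x / 2⌋ + 1 with hj
    have hjr : (j : ℝ) = ⌊x / 2⌋ + 1 := by rw [hj]; push_cast; ring
    obtain ⟨m, υ, hm, _, _, i, l, e3, e4⟩ := hl'.window (Bd_invRel (some k) hi) hx k (j := j)
      (by rw [hjr]; linarith) (by rw [hjr]; linarith)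
    have hα := hy (2 * j) (by have := Dy.int (2 * j); push_cast at this; exact this)
      (by rw [hjr]; linarith) (by rw [hjr]; linarith)
    set α := V f (2 * j)
    have hc : Commute m α := hm.comm
    have ec : α ^ (-k) * m * (α ^ k * m⁻¹ * υ) = υ := by
      have : m * α ^ k = α ^ k * m := (hc.zpow_right k).eq
      calc α ^ (-k) * m * (α ^ k * m⁻¹ * υ) = α ^ (-k) * (m * α ^ k) * m⁻¹ * υ := by group
        _ = υ := by rw [this]; group
    have hpos := hm.lower k rfl
    rw [e3] at g1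
    rw [e4]
    by_contra hn
    push Not at hn
    have := hpos.core_ge hα _ hn
    rw [ec] at this
    exact absurd g1 (not_lt.mpr this)
  · rw [← w1, Tz_even, hl'.even (Bd_invRel (some k) hi)]
    rw [← w1] at g1
    exact g1

theorem pushA_dnS (hl : LetA (some k) hi f f') {x : ℝ} (hx : Dy x)
    (hy : ∀ y, Dy y → x < y → y < x + 2 → s ≤ V f y s) (g1 : V f x s < s) :
    V f' ((T ^ k : Equiv.Perm ℝ) x) s < s := by
  have := pushA_upS (Ω := Ωᵒᵈ) (s := s) hl.dual hx (fun y h1 h2 h3 => by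
    rw [dualF_V]
    exact hy y h1 h2 h3) (by rw [dualF_V]; exact g1)
  rw [dualF_V] at this
  exact this

end Push

section Positions

variable {Ω : Type*} [CompleteLinearOrder Ω]

/-- The position of an arc with lower end `φ` is at least `x`. -/
def Ge (f : (Ω ≃o Ω) × (Ω ≃o Ω)) (s : Ω) (φ x : ℝ) : Prop := x < φ ∨ (φ = x ∧ s ≤ V f x s)

/-- The position of an arc with lower end `φ` is larger than `x`. -/
def Gt (f : (Ω ≃o Ω) × (Ω ≃o Ω)) (s : Ω) (φ x : ℝ) : Prop :=
  x < φ ∨ (φ = x ∧ V f (x + 2) s < s)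

variable {f f' f'' : (Ω ≃o Ω) × (Ω ≃o Ω)} {s : Ω} {φ ψ χ x y : ℝ}

lemma Ge.mono (h : Ge f s φ y) (hxy : x ≤ y) : Ge f s φ x := by
  rcases eq_or_lt_of_le hxy with e | e
  · rw [e]; exact h
  · rcases h with h | ⟨h, _⟩
    · exact Or.inl (e.trans h)
    · exact Or.inl (by rw [h]; exact e)

lemma Gt.mono (h : Gt f s φ y) (hxy : x ≤ y) : Gt f s φ x := by
  rcases eq_or_lt_of_le hxy with e | e
  · rw [e]; exact h
  · rcases h with h | ⟨h, _⟩
    · exact Or.inl (e.trans h)
    · exact Or.inl (by rw [h]; exact e)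

lemma not_ge : ¬ Ge f s φ x ↔ φ < x ∨ (φ = x ∧ V f x s < s) := by
  unfold Ge
  constructor
  · intro h
    push Not at h
    obtain ⟨h1, h2⟩ := h
    rcases eq_or_lt_of_le h1 with e | e
    · exact Or.inr ⟨e, h2 e⟩
    · exact Or.inl e
  · rintro (h | ⟨h, g⟩) (h' | ⟨h', g'⟩)
    · exact absurd (h.trans h') (lt_irrefl _)
    · exact absurd h' h.ne
    · exact absurd h h'.ne'
    · exact absurd g (not_lt.mpr g')

lemma not_gt : ¬ Gt f s φ x ↔ φ < x ∨ (φ = x ∧ s ≤ V f (x + 2) s) := by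
  unfold Gt
  constructor
  · intro h
    push Not at h
    obtain ⟨h1, h2⟩ := h
    rcases eq_or_lt_of_le h1 with e | e
    · exact Or.inr ⟨e, h2 e⟩
    · exact Or.inl e
  · rintro (h | ⟨h, g⟩) (h' | ⟨h', g'⟩)
    · exact absurd (h.trans h') (lt_irrefl _)
    · exact absurd h' h.ne
    · exact absurd h h'.ne'
    · exact absurd g (not_le.mpr g')

/-- The sign of a direction from the position. -/
lemma neg_of_pos (ht : Tr f s φ) (hx : Dy x) (h1 : Gt f s φ (x - 2)) (h2 : ¬ Ge f s φ x) :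
    V f x s < s := by
  rw [not_ge] at h2
  rcases h2 with h2 | ⟨_, h2⟩
  · rcases h1 with h1 | ⟨_, h1⟩
    · exact ht x hx h2 (by linarith)
    · rwa [sub_add_cancel] at h1
  · exact h2

lemma up_half (ht : Tr f s φ) (hd : s ≤ dd f s) :
    ∀ y, Dy y → φ + 2 < y → y < φ + 4 → s < V f y s := by
  intro y hy h1 h2
  have h3 := neg_add_two hd hy.sub_two (ht (y - 2) hy.sub_two (by linarith) (by linarith))
  rwa [sub_add_cancel] at h3

/-- The position of the arc after a twist along the first direction is at least the image of the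
position before it. -/
lemma lowA {lo hi : Option ℤ} (hl : LetA lo hi f f') (hd : s ≤ dd f s) (ht : Tr f s φ)
    (ht' : Tr f' s ψ) (h : ∀ k, lo = some k → (T ^ k : Equiv.Perm ℝ) φ ≤ ψ)
    (h' : lo = none → 2 * (⌊φ / 2⌋ : ℝ) ≤ ψ ∨ φ ≤ 2 * (⌈ψ / 2⌉ : ℝ)) :
    (∀ x, Dy x → Ge f s φ x → Ge f' s ψ (loB lo x)) ∧
    (∀ x, Dy x → Gt f s φ x → Gt f' s ψ (loB lo x)) := by
  cases lo with
  | some k =>
    have h1 := h k rfl
    constructor
    · rintro x hx (g | ⟨rfl, g⟩)
      · rw [loB_some]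
        exact Or.inl ((Tz_strictMono k g).trans_le h1)
      · rw [loB_some]
        rcases eq_or_lt_of_le h1 with e | e
        · exact Or.inr ⟨e.symm, pushA_up hl hx (fun y a b c => (ht y a b c).le) g⟩
        · exact Or.inl e
    · rintro x hx (g | ⟨rfl, g⟩)
      · rw [loB_some]
        exact Or.inl ((Tz_strictMono k g).trans_le h1)
      · rw [loB_some]
        rcases eq_or_lt_of_le h1 with e | e
        · refine Or.inr ⟨e.symm, ?_⟩
          rw [← Tz_add_two]
          exact pushA_dnS hl hx.add_two (fun y a b c =>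
            (up_half ht hd y a b (by linarith)).le) g
        · exact Or.inl e
  | none =>
    have hev : ∀ j : ℤ, V f' (2 * j) = V f (2 * j) := fun j =>
      LetP.even (Bd_invRel none hi) hl j
    have hdy : ∀ j : ℤ, Dy (2 * (j : ℝ)) := fun j => by
      have := Dy.int (2 * j)
      push_cast at this
      exact this
    constructor
    · intro x hx g
      obtain ⟨w1, w2⟩ := window x
      change Ge f' s ψ (2 * (⌊x / 2⌋ : ℝ))
      set j : ℤ := ⌊x / 2⌋ with hj
      have hxφ : x ≤ φ := by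
        rcases g with g | ⟨g, _⟩
        · exact g.le
        · exact g.ge
      by_contra hn
      rw [not_ge] at hn
      have hψ : ψ ≤ 2 * j := by
        rcases hn with hn | ⟨hn, _⟩
        · exact hn.le
        · exact hn.le
      rcases h' rfl with h1 | h1
      · have h2 : (⌊φ / 2⌋ : ℝ) ≤ j := by linarith
        have h3 : ⌊φ / 2⌋ ≤ j := by exact_mod_cast h2
        have h4 := Int.lt_floor_add_one (φ / 2)
        have h5 : (⌊φ / 2⌋ : ℝ) = j := by
          refine le_antisymm h2 ?_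
          have : j ≤ ⌊φ / 2⌋ := Int.floor_le_floor (by linarith)
          exact_mod_cast this
        rw [h5] at h1 h4
        have h6 : ψ = 2 * j := le_antisymm hψ h1
        have h7 : V f' (2 * j) s < s := by
          rcases hn with hn | ⟨_, hn⟩
          · exact absurd h6 hn.ne
          · exact hn
        rw [hev] at h7
        rcases eq_or_lt_of_le (w1.trans hxφ) with h8 | h8
        · rcases g with g | ⟨g, g'⟩
          · linarith
          · rw [← g, ← h8] at g'
            exact absurd h7 (not_lt.mpr g')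
        · exact absurd h7 (not_lt.mpr (ht.below hd (hdy j) (by linarith) h8))
      · have h2 : (⌈ψ / 2⌉ : ℝ) ≤ j := by
          have : ⌈ψ / 2⌉ ≤ j := Int.ceil_le.mpr (by linarith)
          exact_mod_cast this
        have h3 : φ = 2 * j := by linarith
        have h4 : x = 2 * j := by linarith
        have h5 : s ≤ V f (2 * j) s := by
          rcases g with g | ⟨_, g⟩
          · linarith
          · rwa [h4] at g
        rw [← hev] at h5
        rcases hn with hn | ⟨_, hn⟩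
        · have h6 := Int.ceil_lt_add_one (ψ / 2)
          exact absurd (ht' (2 * j) (hdy j) hn (by linarith)) (not_lt.mpr h5)
        · exact absurd hn (not_lt.mpr h5)
    · intro x hx g
      obtain ⟨w1, w2⟩ := window x
      change Gt f' s ψ (2 * (⌊x / 2⌋ : ℝ))
      set j : ℤ := ⌊x / 2⌋ with hj
      have hev' : V f' (2 * (j : ℝ) + 2) = V f (2 * (j : ℝ) + 2) := by
        have := hev (j + 1)
        push_cast at this
        rwa [show (2 : ℝ) * (j + 1) = 2 * j + 2 by ring] at this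
      have hdy' : Dy (2 * (j : ℝ) + 2) := (hdy j).add_two
      have hxφ : x ≤ φ := by
        rcases g with g | ⟨g, _⟩
        · exact g.le
        · exact g.ge
      by_contra hn
      rw [not_gt] at hn
      have hψ : ψ ≤ 2 * j := by
        rcases hn with hn | ⟨hn, _⟩
        · exact hn.le
        · exact hn.le
      rcases h' rfl with h1 | h1
      · have h2 : (⌊φ / 2⌋ : ℝ) ≤ j := by linarith
        have h4 := Int.lt_floor_add_one (φ / 2)
        have h5 : (⌊φ / 2⌋ : ℝ) = j := by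
          refine le_antisymm h2 ?_
          have : j ≤ ⌊φ / 2⌋ := Int.floor_le_floor (by linarith)
          exact_mod_cast this
        rw [h5] at h1 h4
        have h6 : ψ = 2 * j := le_antisymm hψ h1
        have h7 : s ≤ V f' (2 * j + 2) s := by
          rcases hn with hn | ⟨_, hn⟩
          · exact absurd h6 hn.ne
          · exact hn
        rw [hev'] at h7
        rcases eq_or_lt_of_le (w1.trans hxφ) with h8 | h8
        · rcases g with g | ⟨g, g'⟩
          · linarith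
          · rw [← g, ← h8] at g'
            exact absurd g' (not_lt.mpr h7)
        · exact absurd (ht _ hdy' (by linarith) (by linarith)) (not_lt.mpr h7)
      · have h2 : (⌈ψ / 2⌉ : ℝ) ≤ j := by
          have : ⌈ψ / 2⌉ ≤ j := Int.ceil_le.mpr (by linarith)
          exact_mod_cast this
        have h3 : φ = 2 * j := by linarith
        have h4 : x = 2 * j := by linarith
        have h5 : V f (2 * j + 2) s < s := by
          rcases g with g | ⟨_, g⟩
          · linarith
          · rwa [h4] at g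
        rw [← hev'] at h5
        have hd' : s ≤ dd f' s := by rw [hl.dd]; exact hd
        rcases hn with hn | ⟨_, hn⟩
        · have h6 := Int.ceil_lt_add_one (ψ / 2)
          exact absurd (up_half ht' hd' _ hdy' (by linarith) (by linarith)) (not_lt.mpr h5.le)
        · exact absurd h5 (not_lt.mpr hn)

/-- The relation between an arc of `f` and an arc of `f'`. -/
structure Link (f f' : (Ω ≃o Ω) × (Ω ≃o Ω)) (s : Ω) (φ φ' : ℝ) (lo hi : ℝ → ℝ) : Prop where
  tr : Tr f s φ
  tr' : Tr f' s φ'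
  ge : ∀ x, Dy x → Ge f s φ x → Ge f' s φ' (lo x)
  gt : ∀ x, Dy x → Gt f s φ x → Gt f' s φ' (lo x)
  ge' : ∀ x, Dy x → Ge f' s φ' (hi x) → Ge f s φ x
  gt' : ∀ x, Dy x → Gt f' s φ' (hi x) → Gt f s φ x

lemma Link.comp {lo hi lo' hi' : ℝ → ℝ} (h : Link f f' s φ ψ lo hi)
    (h' : Link f' f'' s ψ χ lo' hi') (dlo : ∀ x, Dy x → Dy (lo x)) (dhi : ∀ x, Dy x → Dy (hi x)) :
    Link f f'' s φ χ (fun x => lo' (lo x)) (fun x => hi' (hi x)) :=
  ⟨h.tr, h'.tr', fun x hx g => h'.ge _ (dlo x hx) (h.ge x hx g),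
    fun x hx g => h'.gt _ (dlo x hx) (h.gt x hx g),
    fun x hx g => h.ge' x hx (h'.ge' _ (dhi x hx) g),
    fun x hx g => h.gt' x hx (h'.gt' _ (dhi x hx) g)⟩

variable {ℓ : Letter}

lemma low_cs (x : ℝ) : ℓ.low x = loB ℓ.lo (x + cs ℓ.second) - cs ℓ.second := by
  unfold Letter.low cs
  split_ifs
  · rfl
  · rw [add_zero, sub_zero]

lemma upp_cs (x : ℝ) : ℓ.upp x = hiB ℓ.hi (x + cs ℓ.second) - cs ℓ.second := by
  unfold Letter.upp cs
  split_ifs
  · rfl
  · rw [add_zero, sub_zero]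

lemma step_iff : Step ℓ f f' ↔ LetA ℓ.lo ℓ.hi (Fr ℓ.second f) (Fr ℓ.second f') := by
  unfold Step Fr
  split_ifs
  · exact Iff.rfl
  · exact Iff.rfl

lemma loB_dy (o : Option ℤ) {x : ℝ} (hx : Dy x) : Dy (loB o x) := by
  cases o with
  | some k => rw [loB_some]; exact Tz_dy k hx
  | none =>
    have := Dy.int (2 * ⌊x / 2⌋)
    push_cast at this
    exact this

lemma hiB_dy (o : Option ℤ) {x : ℝ} (hx : Dy x) : Dy (hiB o x) := by
  cases o with
  | some k => rw [hiB_some]; exact Tz_dy k hx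
  | none =>
    have := Dy.int (2 * ⌈x / 2⌉)
    push_cast at this
    exact this

lemma low_dy {x : ℝ} (hx : Dy x) : Dy (ℓ.low x) := by
  rw [low_cs]
  exact (loB_dy _ (hx.add_cs _)).sub_cs _

lemma upp_dy {x : ℝ} (hx : Dy x) : Dy (ℓ.upp x) := by
  rw [upp_cs]
  exact (hiB_dy _ (hx.add_cs _)).sub_cs _

lemma loB_add_two (o : Option ℤ) (x : ℝ) : loB o (x + 2) = loB o x + 2 := by
  cases o with
  | some k => rw [loB_some, loB_some, Tz_add_two]
  | none =>
    change 2 * (⌊(x + 2) / 2⌋ : ℝ) = 2 * (⌊x / 2⌋ : ℝ) + 2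
    rw [show (x + 2) / 2 = x / 2 + 1 by ring, Int.floor_add_one]
    push_cast
    ring

lemma hiB_add_two (o : Option ℤ) (x : ℝ) : hiB o (x + 2) = hiB o x + 2 := by
  cases o with
  | some k => rw [hiB_some, hiB_some, Tz_add_two]
  | none =>
    change 2 * (⌈(x + 2) / 2⌉ : ℝ) = 2 * (⌈x / 2⌉ : ℝ) + 2
    rw [show (x + 2) / 2 = x / 2 + 1 by ring, Int.ceil_add_one]
    push_cast
    ring

lemma low_add_two (x : ℝ) : ℓ.low (x + 2) = ℓ.low x + 2 := by
  rw [low_cs, low_cs, show x + 2 + cs ℓ.second = x + cs ℓ.second + 2 by ring, loB_add_two]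
  ring

lemma upp_add_two (x : ℝ) : ℓ.upp (x + 2) = ℓ.upp x + 2 := by
  rw [upp_cs, upp_cs, show x + 2 + cs ℓ.second = x + cs ℓ.second + 2 by ring, hiB_add_two]
  ring

lemma Tr_Fr (sec : Bool) : Tr (Fr sec f) s (φ + cs sec) ↔ Tr f s φ := by
  cases sec
  · simp [Fr, cs]
  · exact Tr_Rinv

lemma Ge_Fr (sec : Bool) (hx : Dy x) :
    Ge (Fr sec f) s (φ + cs sec) (x + cs sec) ↔ Ge f s φ x := by
  unfold Ge
  rw [V_Fr sec f (hx.add_cs sec), add_sub_cancel_right, add_lt_add_iff_right, add_left_inj]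

lemma Gt_Fr (sec : Bool) (hx : Dy x) :
    Gt (Fr sec f) s (φ + cs sec) (x + cs sec) ↔ Gt f s φ x := by
  unfold Gt
  rw [V_Fr sec f (hx.add_cs sec).add_two, show x + cs sec + 2 - cs sec = x + 2 by ring,
    add_lt_add_iff_right, add_left_inj]

lemma dd_Fr (sec : Bool) : dd (Fr sec f) = dd f := by
  cases sec
  · rfl
  · exact dd_Rinv f

/-- The lower half of a step. -/
lemma lowS (hl : Step ℓ f f') (hd : s ≤ dd f s) (ht : Tr f s φ) (ht' : Tr f' s ψ)
    (h : ∀ k, ℓ.lo = some k → (T ^ k : Equiv.Perm ℝ) (φ + cs ℓ.second) ≤ ψ + cs ℓ.second)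
    (h' : ℓ.lo = none → 2 * (⌊(φ + cs ℓ.second) / 2⌋ : ℝ) ≤ ψ + cs ℓ.second ∨
      φ + cs ℓ.second ≤ 2 * (⌈(ψ + cs ℓ.second) / 2⌉ : ℝ)) :
    (∀ x, Dy x → Ge f s φ x → Ge f' s ψ (ℓ.low x)) ∧
    (∀ x, Dy x → Gt f s φ x → Gt f' s ψ (ℓ.low x)) := by
  obtain ⟨h1, h2⟩ := lowA (step_iff.mp hl) (by rw [dd_Fr]; exact hd) ((Tr_Fr ℓ.second).mpr ht)
    ((Tr_Fr ℓ.second).mpr ht') h h'
  constructor
  · intro x hx g
    rw [← Ge_Fr ℓ.second (low_dy hx), low_cs, sub_add_cancel]
    exact h1 _ (hx.add_cs _) ((Ge_Fr ℓ.second hx).mpr g)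
  · intro x hx g
    rw [← Gt_Fr ℓ.second (low_dy hx), low_cs, sub_add_cancel]
    exact h2 _ (hx.add_cs _) ((Gt_Fr ℓ.second hx).mpr g)

/-- The inverse letter. -/
def invL (ℓ : Letter) : Letter := ⟨ℓ.second, negB ℓ.hi, negB ℓ.lo⟩

lemma Step.rev (hl : Step ℓ f f') : Step (invL ℓ) f' f := by
  rw [step_iff] at hl ⊢
  exact LetA_rev hl

lemma loB_hiB (o : Option ℤ) (x : ℝ) : x ≤ loB (negB o) (hiB o x) := by
  cases o with
  | some k =>
    rw [hiB_some]
    change x ≤ loB (some (-k)) _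
    rw [loB_some, Tz_inv_apply]
  | none =>
    change x ≤ 2 * (⌊(2 * (⌈x / 2⌉ : ℝ)) / 2⌋ : ℝ)
    rw [mul_div_cancel_left₀ _ (two_ne_zero), Int.floor_intCast]
    have := Int.le_ceil (x / 2)
    linarith

lemma hiB_loB (o : Option ℤ) (x : ℝ) : hiB (negB o) (loB o x) ≤ x := by
  cases o with
  | some k =>
    rw [loB_some]
    change hiB (some (-k)) _ ≤ x
    rw [hiB_some, Tz_inv_apply]
  | none =>
    change 2 * (⌈(2 * (⌊x / 2⌋ : ℝ)) / 2⌉ : ℝ) ≤ x
    rw [mul_div_cancel_left₀ _ (two_ne_zero), Int.ceil_intCast]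
    have := Int.floor_le (x / 2)
    linarith

lemma inv_low_upp (x : ℝ) : x ≤ (invL ℓ).low (ℓ.upp x) := by
  have h : cs (invL ℓ).second = cs ℓ.second := rfl
  rw [low_cs, upp_cs, h, sub_add_cancel]
  have := loB_hiB ℓ.hi (x + cs ℓ.second)
  change x ≤ loB (negB ℓ.hi) _ - _
  linarith

lemma inv_upp_low (x : ℝ) : (invL ℓ).upp (ℓ.low x) ≤ x := by
  have h : cs (invL ℓ).second = cs ℓ.second := rfl
  rw [upp_cs, low_cs, h, sub_add_cancel]
  have := hiB_loB ℓ.lo (x + cs ℓ.second)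
  change hiB (negB ℓ.lo) _ - _ ≤ x
  linarith

/-- One step. -/
lemma link_step (hl : Step ℓ f f') (hd : s ≤ dd f s) (ht : Tr f s φ) (ht' : Tr f' s ψ)
    (h1 : ℓ.low φ ≤ ψ) (h2 : ψ ≤ ℓ.upp φ) : Link f f' s φ ψ ℓ.low ℓ.upp := by
  have hd' : s ≤ dd f' s := by rw [hl.dd]; exact hd
  obtain ⟨a1, a2⟩ := lowS hl hd ht ht'
    (fun k hk => by
      rw [low_cs, hk, loB_some] at h1
      linarith)
    (fun hk => by
      rw [low_cs, hk] at h1
      change 2 * (⌊(φ + cs ℓ.second) / 2⌋ : ℝ) - _ ≤ _ at h1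
      left
      linarith)
  obtain ⟨b1, b2⟩ := lowS (Step.rev hl) hd' ht' ht
    (fun k hk => by
      change negB ℓ.hi = some k at hk
      change (T ^ k : Equiv.Perm ℝ) (ψ + cs ℓ.second) ≤ φ + cs ℓ.second
      rw [upp_cs, negB_some hk, hiB_some] at h2
      have h3 := (Tz_strictMono k).monotone (show ψ + cs ℓ.second ≤
        (T ^ (-k) : Equiv.Perm ℝ) (φ + cs ℓ.second) by linarith)
      rwa [Tz_apply_inv] at h3)
    (fun hk => by
      change negB ℓ.hi = none at hk
      change _ ∨ ψ + cs ℓ.second ≤ 2 * (⌈(φ + cs ℓ.second) / 2⌉ : ℝ)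
      have hk' : ℓ.hi = none := by
        cases h : ℓ.hi with
        | none => rfl
        | some k => rw [h] at hk; exact absurd hk (by simp [negB])
      rw [upp_cs, hk'] at h2
      change _ ≤ 2 * (⌈(φ + cs ℓ.second) / 2⌉ : ℝ) - _ at h2
      right
      linarith)
  exact ⟨ht, ht', a1, a2, fun x hx g => (b1 _ (upp_dy hx) g).mono (inv_low_upp x),
    fun x hx g => (b2 _ (upp_dy hx) g).mono (inv_low_upp x)⟩

lemma Link.rev (h : Link f' f s ψ φ (invL ℓ).low (invL ℓ).upp) :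
    Link f f' s φ ψ ℓ.low ℓ.upp :=
  ⟨h.tr', h.tr, fun x hx g => h.ge' _ (low_dy hx) (g.mono (inv_upp_low x)),
    fun x hx g => h.gt' _ (low_dy hx) (g.mono (inv_upp_low x)),
    fun x hx g => (h.ge _ (upp_dy hx) g).mono (inv_low_upp x),
    fun x hx g => (h.gt _ (upp_dy hx) g).mono (inv_low_upp x)⟩

end Positions

section Compositions

variable (W : ℕ → Letter)

lemma lw_add_two (k : ℕ) (x : ℝ) : lw W k (x + 2) = lw W k x + 2 := by
  induction k with
  | zero => rfl
  | succ k ih =>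
    change (W k).low (lw W k (x + 2)) = (W k).low (lw W k x) + 2
    rw [ih, low_add_two]

lemma hw_add_two (k : ℕ) (x : ℝ) : hw W k (x + 2) = hw W k x + 2 := by
  induction k with
  | zero => rfl
  | succ k ih =>
    change (W k).upp (hw W k (x + 2)) = (W k).upp (hw W k x) + 2
    rw [ih, upp_add_two]

lemma even_of_add_two {F : ℝ → ℝ} (hF : ∀ x, F (x + 2) = F x + 2) (j : ℤ) (x : ℝ) :
    F (x + 2 * j) = F x + 2 * j := by
  induction j with
  | zero => simp
  | succ m ih =>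
    push_cast at ih ⊢
    rw [show x + 2 * ((m : ℝ) + 1) = x + 2 * m + 2 by ring, hF, ih]
    ring
  | pred m ih =>
    push_cast at ih ⊢
    have h1 := hF (x + 2 * (-(m : ℝ) - 1))
    rw [show x + 2 * (-(m : ℝ) - 1) + 2 = x + 2 * -(m : ℝ) by ring, ih] at h1
    linarith

lemma lw_even (k : ℕ) (j : ℤ) (x : ℝ) : lw W k (x + 2 * j) = lw W k x + 2 * j :=
  even_of_add_two (lw_add_two W k) j x

lemma hw_even (k : ℕ) (j : ℤ) (x : ℝ) : hw W k (x + 2 * j) = hw W k x + 2 * j :=
  even_of_add_two (hw_add_two W k) j x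

lemma lw_dy (k : ℕ) {x : ℝ} (h : Dy x) : Dy (lw W k x) := by
  induction k with
  | zero => exact h
  | succ k ih => exact low_dy ih

lemma hw_dy (k : ℕ) {x : ℝ} (h : Dy x) : Dy (hw W k x) := by
  induction k with
  | zero => exact h
  | succ k ih => exact upp_dy ih

end Compositions

section Chains

variable {Ω : Type*} [CompleteLinearOrder Ω] {n : ℕ} {W : ℕ → Letter}
  {f : ℕ → (Ω ≃o Ω) × (Ω ≃o Ω)} {s : Ω} {φ ψ : ℝ}

lemma chain_dd (hs : ∀ i, i < n → Step (W i) (f i) (f (i + 1))) (i : ℕ) (hi : i ≤ n) :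
    dd (f i) = dd (f 0) := by
  induction i with
  | zero => rfl
  | succ i ih => rw [(hs i hi).dd, ih (by omega)]

lemma link_refl (ht : Tr (f 0) s φ) : Link (f 0) (f 0) s φ φ (lw W 0) (hw W 0) :=
  ⟨ht, ht, fun _ _ g => g, fun _ _ g => g, fun _ _ g => g, fun _ _ g => g⟩

/-- Forward tracking. -/
theorem forward (hs : ∀ i, i < n → Step (W i) (f i) (f (i + 1))) (hd : s ≤ dd (f 0) s)
    (ht : Tr (f 0) s φ) (i : ℕ) (hi : i ≤ n) :
    ∃ ψ, Link (f 0) (f i) s φ ψ (lw W i) (hw W i) := by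
  induction i with
  | zero => exact ⟨φ, link_refl ht⟩
  | succ i ih =>
    obtain ⟨ψ, hψ⟩ := ih (by omega)
    have hd' : s ≤ dd (f i) s := by rw [chain_dd hs i (by omega)]; exact hd
    obtain ⟨χ, q1, q2, q3⟩ := (hs i hi).track hd' hψ.tr'
    exact ⟨χ, hψ.comp (link_step (hs i hi) hd' hψ.tr' q1 q2 q3) (fun x hx => lw_dy W i hx)
      (fun x hx => hw_dy W i hx)⟩

/-- Backward tracking. -/
theorem backward (hs : ∀ i, i < n → Step (W i) (f i) (f (i + 1))) (hd : s ≤ dd (f 0) s)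
    (i : ℕ) (hi : i ≤ n) : ∀ ψ, Tr (f i) s ψ →
    ∃ φ, Link (f 0) (f i) s φ ψ (lw W i) (hw W i) := by
  induction i with
  | zero => intro ψ ht; exact ⟨ψ, link_refl ht⟩
  | succ i ih =>
    intro χ ht
    have hd'' : s ≤ dd (f (i + 1)) s := by rw [chain_dd hs (i + 1) hi]; exact hd
    obtain ⟨ψ, q1, q2, q3⟩ := (Step.rev (hs i hi)).track hd'' ht
    have hL := Link.rev (link_step (Step.rev (hs i hi)) hd'' ht q1 q2 q3)
    obtain ⟨φ, hφ⟩ := ih (by omega) ψ q1
    exact ⟨φ, hφ.comp hL (fun x hx => lw_dy W i hx) (fun x hx => hw_dy W i hx)⟩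

end Chains

end Pool.Agent.Helper25.FT
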