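import Mathlib
import Pool.Agent.Helper25.FT.Push

/-!
Words in rational twists in the hole of a network.
-/

set_option autoImplicit false

namespace Pool.Agent.Helper25.FT

open Pool.Agent.Helper31.OrderAct
open Pool.Agent.Helper31.TwistChain (dualHom)
open Pool.Agent.Helper71.Rot

section Signs

variable {Ω : Type*} [CompleteLinearOrder Ω]

/-- The data of a network with a word in its hole. -/
structure Ctx (A B A' B' A₁ B₁ τ : Ω ≃o Ω) (F : Set (Ω ≃o Ω)) (n : ℕ) (W : ℕ → Letter)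
    (f : ℕ → (Ω ≃o Ω) × (Ω ≃o Ω)) : Prop where
  rules : ∀ s, Rules A B A' B' F s
  btw : Btw τ (bdy A B)
  relA : A' = τ * A₁ * τ⁻¹
  relB : B' = τ * B₁ * τ⁻¹
  f0 : f 0 = (A, B⁻¹)
  fn : f n = (A₁, B₁⁻¹)
  step : ∀ i, i < n → Step (W i) (f i) (f (i + 1))
  low : 2 ≤ lw W n 0
  upp : hw W n 1 ≤ 3

variable {A B A' B' A₁ B₁ τ : Ω ≃o Ω} {F : Set (Ω ≃o Ω)} {n : ℕ} {W : ℕ → Letter}
  {f : ℕ → (Ω ≃o Ω) × (Ω ≃o Ω)}

lemma Ctx.dual (c : Ctx A B A' B' A₁ B₁ τ F n W f) :
    Ctx (Ω := Ωᵒᵈ) (dualHom A) (dualHom B) (dualHom A') (dualHom B') (dualHom A₁) (dualHom B₁)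
      (dualHom τ) (dualHom '' F) n W (fun i => dualF (f i)) := by
  refine ⟨fun s => (c.rules s).dual, ?_, ?_, ?_, ?_, ?_, fun i hi => (c.step i hi).dual,
    c.low, c.upp⟩
  · rw [bdy_dual]; exact c.btw.dual
  · rw [c.relA, map_mul, map_mul, map_inv]
  · rw [c.relB, map_mul, map_mul, map_inv]
  · rw [c.f0]
    change (dualHom A, dualHom B⁻¹) = _
    rw [map_inv]
  · rw [c.fn]
    change (dualHom A₁, dualHom B₁⁻¹) = _
    rw [map_inv]

lemma Ctx.dd0 (c : Ctx A B A' B' A₁ B₁ τ F n W f) : dd (f 0) = bdy A B := by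
  rw [c.f0]
  change A * B⁻¹⁻¹ * A⁻¹ * B⁻¹ = A * B * A⁻¹ * B⁻¹
  rw [inv_inv]

lemma Ctx.ddn (c : Ctx A B A' B' A₁ B₁ τ F n W f) : dd (f n) = bdy A B := by
  rw [chain_dd c.step n le_rfl, c.dd0]

/-- The frame above the hole. -/
def top (A' B' : Ω ≃o Ω) : (Ω ≃o Ω) × (Ω ≃o Ω) := (A', B'⁻¹)

lemma Ctx.V_top (c : Ctx A B A' B' A₁ B₁ τ F n W f) (x : ℝ) :
    V (top A' B') x = τ * V (f n) x * τ⁻¹ := by
  have := V_conj (f n) τ x
  rw [← this, c.fn, top, c.relA, c.relB]
  have e : (τ * B₁ * τ⁻¹)⁻¹ = τ * B₁⁻¹ * τ⁻¹ := by group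
  rw [e]

lemma V_add_two (g : (Ω ≃o Ω) × (Ω ≃o Ω)) {x : ℝ} (hx : Dy x) :
    V g (x + 2) = dd g * (V g x)⁻¹ := eq_mul_inv_of_mul_eq (V_per g hx)

lemma V_sub_two (g : (Ω ≃o Ω) × (Ω ≃o Ω)) {x : ℝ} (hx : Dy x) :
    V g (x - 2) = (V g x)⁻¹ * dd g := by
  have h1 := V_per g hx.sub_two
  rw [sub_add_cancel] at h1
  exact eq_inv_mul_of_mul_eq h1

lemma Ctx.dd_top (c : Ctx A B A' B' A₁ B₁ τ F n W f) : dd (top A' B') = bdy A B := by
  have h0 : Dy (0 : ℝ) := dy0
  have h1 := V_per (top A' B') h0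
  rw [c.V_top, c.V_top] at h1
  have h2 : τ * V (f n) (0 + 2) * τ⁻¹ * (τ * V (f n) 0 * τ⁻¹) =
      τ * (V (f n) (0 + 2) * V (f n) 0) * τ⁻¹ := by group
  rw [h2, V_per (f n) h0, c.ddn, c.btw.comm, mul_inv_cancel_right] at h1
  exact h1.symm

lemma inv_lt_iff {x : Ω ≃o Ω} {s : Ω} : x⁻¹ s < s ↔ s < x s := by
  constructor
  · intro h
    have := x.strictMono h
    rwa [RelIso.apply_inv_self] at this
  · exact inv_lt_of_gt

lemma lt_inv_iff {x : Ω ≃o Ω} {s : Ω} : s < x⁻¹ s ↔ x s < s := by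
  constructor
  · intro h
    have := x.strictMono h
    rwa [RelIso.apply_inv_self] at this
  · exact inv_gt_of_lt

lemma le_inv_iff {x : Ω ≃o Ω} {s : Ω} : s ≤ x⁻¹ s ↔ x s ≤ s := by
  constructor
  · intro h
    have := x.monotone h
    rwa [RelIso.apply_inv_self] at this
  · exact inv_ge_of_le

lemma top_zero : V (top A' B') 0 = A' := V_zero _ _

lemma top_neg : V (top A' B') (-1) = B'⁻¹ := V_neg_one _ _

lemma Ctx.bot_zero (c : Ctx A B A' B' A₁ B₁ τ F n W f) : V (f 0) 0 = A := by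
  rw [c.f0]; exact V_zero _ _

lemma Ctx.bot_neg (c : Ctx A B A' B' A₁ B₁ τ F n W f) : V (f 0) (-1) = B⁻¹ := by
  rw [c.f0]; exact V_neg_one _ _

lemma Ctx.bot_two (c : Ctx A B A' B' A₁ B₁ τ F n W f) : V (f 0) (-2) = A⁻¹ * bdy A B := by
  have := V_sub_two (f 0) dy0
  rw [zero_sub, c.bot_zero, c.dd0] at this
  exact this

lemma Ctx.bot_three (c : Ctx A B A' B' A₁ B₁ τ F n W f) : V (f 0) (-3) = B * bdy A B := by
  have := V_sub_two (f 0) dy1
  rw [show (-1 : ℝ) - 2 = -3 by norm_num, c.bot_neg, inv_inv, c.dd0] at this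
  exact this

lemma dyi (k : ℤ) : Dy (k : ℝ) := Dy.int k

lemma dyn3 : Dy (-3 : ℝ) := by exact_mod_cast Dy.int (-3)

lemma dyp1 : Dy (1 : ℝ) := by exact_mod_cast Dy.int 1

lemma dyp2 : Dy (2 : ℝ) := by exact_mod_cast Dy.int 2

lemma dyp3 : Dy (3 : ℝ) := by exact_mod_cast Dy.int 3

lemma dyn4 : Dy (-4 : ℝ) := by exact_mod_cast Dy.int (-4)

lemma dyn5 : Dy (-5 : ℝ) := by exact_mod_cast Dy.int (-5)

/-- If `V g y` moves `r` down, then `V g (y - 2)` moves the points between `d⁻¹ r` and `r` up. -/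
lemma before' {g : (Ω ≃o Ω) × (Ω ≃o Ω)} {q r : Ω} {y : ℝ} (hy : Dy y) (h : V g y r < r)
    (h1 : q ≤ r) (h2 : r ≤ dd g q) : q < V g (y - 2) q := by
  rw [V_sub_two g hy, RelIso.mul_apply]
  exact h1.trans_lt ((inv_gt_of_lt h).trans_le ((V g y)⁻¹.monotone h2))

section Facts

variable (c : Ctx A B A' B' A₁ B₁ τ F n W f) {s z : Ω} {φ ψ : ℝ}

include c

lemma Ctx.k1 (hl : Link (f 0) (f n) s φ ψ (lw W n) (hw W n)) (j : ℤ)
    (h : Ge (f 0) s φ (2 * j)) : Ge (f n) s ψ (2 * j + 2) := by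
  have h1 := hl.ge (2 * j) (by exact_mod_cast Dy.int (2 * j)) h
  have h2 := lw_even W n j 0
  rw [zero_add] at h2
  exact h1.mono (by rw [h2]; linarith [c.low])

lemma Ctx.k2 (hl : Link (f 0) (f n) s φ ψ (lw W n) (hw W n)) (j : ℤ)
    (h : Gt (f 0) s φ (2 * j)) : Gt (f n) s ψ (2 * j + 2) := by
  have h1 := hl.gt (2 * j) (by exact_mod_cast Dy.int (2 * j)) h
  have h2 := lw_even W n j 0
  rw [zero_add] at h2
  exact h1.mono (by rw [h2]; linarith [c.low])

lemma Ctx.k3 (hl : Link (f 0) (f n) s φ ψ (lw W n) (hw W n)) (j : ℤ)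
    (h : Ge (f n) s ψ (2 * j + 3)) : Ge (f 0) s φ (2 * j + 1) := by
  have h2 := hw_even W n j 1
  have h3 := c.upp
  rw [add_comm (1 : ℝ)] at h2
  refine hl.ge' (2 * j + 1) (by exact_mod_cast Dy.int (2 * j + 1)) (h.mono ?_)
  linarith

lemma Ctx.k4 (hl : Link (f 0) (f n) s φ ψ (lw W n) (hw W n)) (j : ℤ)
    (h : Gt (f n) s ψ (2 * j + 3)) : Gt (f 0) s φ (2 * j + 1) := by
  have h2 := hw_even W n j 1
  have h3 := c.upp
  rw [add_comm (1 : ℝ)] at h2
  refine hl.gt' (2 * j + 1) (by exact_mod_cast Dy.int (2 * j + 1)) (h.mono ?_)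
  linarith

lemma Ctx.top_lt {x : ℝ} : V (top A' B') x z < z ↔ V (f n) x (τ⁻¹ z) < τ⁻¹ z := by
  rw [c.V_top, RelIso.mul_apply, RelIso.mul_apply]
  constructor
  · intro h
    have := τ⁻¹.strictMono h
    rwa [RelIso.inv_apply_self] at this
  · intro h
    have := τ.strictMono h
    rwa [RelIso.apply_inv_self] at this

lemma Ctx.lt_top {x : ℝ} : z < V (top A' B') x z ↔ τ⁻¹ z < V (f n) x (τ⁻¹ z) := by
  rw [c.V_top, RelIso.mul_apply, RelIso.mul_apply]
  constructor
  · intro h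
    have := τ⁻¹.strictMono h
    rwa [RelIso.inv_apply_self] at this
  · intro h
    have := τ.strictMono h
    rwa [RelIso.apply_inv_self] at this

lemma Ctx.le_top {x : ℝ} : z ≤ V (top A' B') x z ↔ τ⁻¹ z ≤ V (f n) x (τ⁻¹ z) := by
  rw [c.V_top, RelIso.mul_apply, RelIso.mul_apply]
  constructor
  · intro h
    have := τ⁻¹.monotone h
    rwa [RelIso.inv_apply_self] at this
  · intro h
    have := τ.monotone h
    rwa [RelIso.apply_inv_self] at this

/-- The point `τ⁻¹ z`. -/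
lemma Ctx.pre (hd : z ≤ bdy A B z) : τ⁻¹ z ≤ z ∧ z ≤ bdy A B (τ⁻¹ z) := by
  obtain ⟨u1, u2⟩ := c.btw.up z hd
  refine ⟨inv_le_of_ge u1, ?_⟩
  have hc : Commute τ (bdy A B) := c.btw.comm
  have h1 := τ⁻¹.monotone u2
  rw [RelIso.inv_apply_self, ← RelIso.mul_apply, hc.inv_left.eq] at h1
  exact h1

/-- `A'` down and `B'` weakly down at a point: the direction `-2` moves the point `τ⁻¹ z`
down. -/
lemma Ctx.down_two (hd : z ≤ bdy A B z) (h1 : A' z < z) (h2 : B' z ≤ z) :
    V (f 0) (-2) (τ⁻¹ z) < τ⁻¹ z := by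
  obtain ⟨p1, p2⟩ := c.pre hd
  set p := τ⁻¹ z with hp
  have pd : p ≤ bdy A B p := p1.trans p2
  have k0 : V (f n) 0 p < p := c.top_lt.mp (by rw [top_zero]; exact h1)
  have k1 : p ≤ V (f n) (-1) p := c.le_top.mp (by rw [top_neg, le_inv_iff]; exact h2)
  obtain ⟨ψ, q1, q2, q3⟩ := arc (by rw [c.ddn]; exact pd) dy0 k0
  have a1 : ¬ Ge (f n) p ψ 0 := by
    rw [not_ge]
    rcases eq_or_lt_of_le q1 with e | e
    · exact Or.inr ⟨e, k0⟩
    · exact Or.inl e
  have a2 : Ge (f n) p ψ (-1) := by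
    have : -1 ≤ ψ := by
      by_contra hn
      push Not at hn
      exact absurd (q3 (-1) dy1 hn (by linarith)) (not_lt.mpr k1)
    rcases eq_or_lt_of_le this with e | e
    · exact Or.inr ⟨e.symm, k1⟩
    · exact Or.inl e
  obtain ⟨φ, hl⟩ := backward c.step (by rw [c.dd0]; exact pd) n le_rfl ψ q3
  have b1 : ¬ Ge (f 0) p φ (-2) := by
    intro h
    apply a1
    have := c.k1 hl (-1) (by push_cast; norm_num; exact h)
    push_cast at this
    norm_num at this
    exact this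
  have b2 : Ge (f 0) p φ (-3) := by
    have := c.k3 hl (-2) (by push_cast; norm_num; exact a2)
    push_cast at this
    norm_num at this
    exact this
  have b3 : Gt (f 0) p φ (-2 - 2) := by
    rcases b2 with h | ⟨h, _⟩
    · exact Or.inl (by linarith)
    · exact Or.inl (by linarith)
  exact neg_of_pos hl.tr dy2 b3 b1

/-- Fixed points of `A`. -/
theorem Ctx.fixA_up (hz : A z = z) (hd : z ≤ bdy A B z) : B z = z := by
  obtain ⟨u1, u2⟩ := c.btw.up z hd
  rcases lt_trichotomy (B z) z with h | h | h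
  · exfalso
    have h1 : A' z < z := by
      by_contra hn
      push Not at hn
      exact absurd ((c.rules z).bmin hz.le (by rw [hz]; exact hn)) (not_le.mpr h)
    have h2 : B' z < z := (c.rules z).tmin' h1 (by rw [hz]; exact h1)
    have h3 := c.down_two hd h1 h2.le
    obtain ⟨p1, p2⟩ := c.pre hd
    rw [c.bot_two, RelIso.mul_apply] at h3
    have h4 := A⁻¹.monotone p2
    rw [inv_fix hz] at h4
    exact absurd ((p1.trans h4).trans_lt h3) (lt_irrefl _)
  · exact h
  · exfalso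
    have hm2 : z ≤ V (f 0) (-2) z := by
      rw [c.bot_two, RelIso.mul_apply]
      have := A⁻¹.monotone hd
      rwa [inv_fix hz] at this
    have h1 : V (f 0) (-1) z < z := by rw [c.bot_neg, inv_lt_iff]; exact h
    obtain ⟨φ, q1, q2, q3⟩ := arc (by rw [c.dd0]; exact hd) dy1 h1
    have s1 : φ ≤ -2 := by
      by_contra hn
      push Not at hn
      have := q3 0 dy0 (by linarith) (by linarith)
      rw [c.bot_zero, hz] at this
      exact absurd this (lt_irrefl _)
    have s2 : -2 ≤ φ := by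
      by_contra hn
      push Not at hn
      exact absurd (q3 (-2) dy2 hn (by linarith)) (not_lt.mpr hm2)
    have s3 : φ = -2 := le_antisymm s1 s2
    obtain ⟨ψ, hl⟩ := forward c.step (by rw [c.dd0]; exact hd) q3 n le_rfl
    have a1 : Ge (f n) z ψ 0 := by
      have := c.k1 hl (-1) (by push_cast; norm_num; exact Or.inr ⟨s3, hm2⟩)
      push_cast at this
      norm_num at this
      exact this
    have a2 : ¬ Ge (f n) z ψ 1 := by
      intro h
      have := c.k3 hl (-1) (by push_cast; norm_num; exact h)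
      push_cast at this
      norm_num at this
      rcases this with h | ⟨h, _⟩ <;> linarith
    have a3 : V (f n) 1 z < z := by
      refine neg_of_pos hl.tr' dyp1 ?_ a2
      rcases a1 with h | ⟨h, _⟩
      · exact Or.inl (by linarith)
      · exact Or.inl (by linarith)
    have a4 : V (top A' B') 1 (τ z) < τ z := c.top_lt.mpr (by rw [RelIso.inv_apply_self]; exact a3)
    have a5 := before' dyp1 a4 u1 (by rw [c.dd_top]; exact u2)
    rw [show (1 : ℝ) - 2 = -1 by norm_num, top_neg, lt_inv_iff] at a5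
    rcases le_or_gt z (A' z) with h5 | h5
    · exact absurd ((c.rules z).tmax h5 (by rw [hz]; exact h5)) (not_le.mpr a5)
    · exact absurd ((c.rules z).bmax hz.ge (by rw [hz]; exact h5.le)) (not_le.mpr h)

/-- Fixed points of `B`. -/
theorem Ctx.fixB_up (hz : B z = z) (hd : z ≤ bdy A B z) : A z = z := by
  obtain ⟨p1, p2⟩ := c.pre hd
  rcases lt_trichotomy (A z) z with h | h | h
  · exfalso
    have h1 : A' z ≤ A z := by
      by_contra hn
      push Not at hn
      have := (c.rules z).bmin' h hn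
      rw [hz] at this
      exact absurd this (lt_irrefl _)
    have h2 : A' z < z := h1.trans_lt h
    have h3 : B' z ≤ z := (c.rules z).tmin h2.le h1
    have h4 := c.down_two hd h2 h3
    have h5 : V (f 0) 0 z < z := by rw [c.bot_zero]; exact h
    have h6 := before' dy0 h5 p1 (by rw [c.dd0]; exact p2)
    rw [zero_sub] at h6
    exact absurd (h4.trans h6) (lt_irrefl _)
  · exact h
  · exfalso
    have h1 : A z ≤ A' z := by
      by_contra hn
      push Not at hn
      have := (c.rules z).bmax' h hn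
      rw [hz] at this
      exact absurd this (lt_irrefl _)
    have h2 : z ≤ B' z := (c.rules z).tmax (h.le.trans h1) h1
    rcases eq_or_lt_of_le h2 with h3 | h3
    · have h4 : A' z = A z := by
        refine le_antisymm ?_ h1
        by_contra hn
        push Not at hn
        have := (c.rules z).tmax' (h.trans hn) hn
        rw [← h3] at this
        exact absurd this (lt_irrefl _)
      exact (c.rules z).tie h h4 hz h3.symm
    · set p := τ⁻¹ z with hp
      have pd : p ≤ bdy A B p := p1.trans p2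
      have k1 : V (f n) (-1) p < p := c.top_lt.mp (by rw [top_neg, inv_lt_iff]; exact h3)
      have k0 : p < V (f n) 0 p := c.lt_top.mp (by rw [top_zero]; exact h.trans_le h1)
      obtain ⟨ψ, q1, q2, q3⟩ := arc (by rw [c.ddn]; exact pd) dy1 k1
      have s1 : ψ ≤ -2 := by
        by_contra hn
        push Not at hn
        exact absurd (q3 0 dy0 (by linarith) (by linarith)) (not_lt.mpr k0.le)
      have a1 : Gt (f n) p ψ (-3) := by
        rcases eq_or_lt_of_le (show -3 ≤ ψ by linarith) with e | e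
        · exact Or.inr ⟨e.symm, by norm_num; exact k1⟩
        · exact Or.inl e
      have a2 : ¬ Gt (f n) p ψ (-2) := by
        rw [not_gt]
        rcases eq_or_lt_of_le s1 with e | e
        · exact Or.inr ⟨e, by norm_num; exact k0.le⟩
        · exact Or.inl e
      obtain ⟨φ, hl⟩ := backward c.step (by rw [c.dd0]; exact pd) n le_rfl ψ q3
      have b1 : Gt (f 0) p φ (-5) := by
        have := c.k4 hl (-3) (by push_cast; norm_num; exact a1)
        push_cast at this
        norm_num at this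
        exact this
      have b2 : ¬ Gt (f 0) p φ (-4) := by
        intro h
        apply a2
        have := c.k2 hl (-2) (by push_cast; norm_num; exact h)
        push_cast at this
        norm_num at this
        exact this
      have b3 : V (f 0) (-3) p < p := by
        refine neg_of_pos hl.tr dyn3 (by norm_num; exact b1) ?_
        rw [not_ge]
        rw [not_gt] at b2
        rcases b2 with h | ⟨h, _⟩
        · exact Or.inl (by linarith)
        · exact Or.inl (by linarith)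
      rw [c.bot_three, RelIso.mul_apply] at b3
      have h4 := B.monotone p2
      rw [hz] at h4
      exact absurd ((p1.trans h4).trans_lt b3) (lt_irrefl _)

end Facts

lemma Ctx.fixA (c : Ctx A B A' B' A₁ B₁ τ F n W f) {z : Ω} (hz : A z = z) : B z = z := by
  rcases le_total z (bdy A B z) with h | h
  · exact c.fixA_up hz h
  · exact c.dual.fixA_up hz (by rw [bdy_dual]; exact h)

lemma Ctx.fixB (c : Ctx A B A' B' A₁ B₁ τ F n W f) {z : Ω} (hz : B z = z) : A z = z := by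
  rcases le_total z (bdy A B z) with h | h
  · exact c.fixB_up hz h
  · exact c.dual.fixB_up hz (by rw [bdy_dual]; exact h)

/-- A step preserves fixed points. -/
lemma Step_fix {ℓ : Letter} {g g' : (Ω ≃o Ω) × (Ω ≃o Ω)} (h : Step ℓ g g') {s : Ω}
    (h1 : g.1 s = s) (h2 : g.2 s = s) : g'.1 s = s ∧ g'.2 s = s := by
  have key : ∀ {lo hi : Option ℤ} {g g' : (Ω ≃o Ω) × (Ω ≃o Ω)}, LetA lo hi g g' → g.1 s = s →
      g.2 s = s → g'.1 s = s ∧ g'.2 s = s := by
    rintro lo hi g g' ⟨m, hb, e1, e2⟩ h1 h2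
    refine ⟨by rw [e1]; exact h1, ?_⟩
    rw [e2, RelIso.mul_apply, h2, inv_fix (hb.fix h1)]
  unfold Step at h
  split_ifs at h
  · have h3 : (R⁻¹ g).1 s = s ∧ (R⁻¹ g).2 s = s := by
      refine ⟨h2, ?_⟩
      change g.2⁻¹ (g.1⁻¹ (g.2 s)) = s
      rw [h2, inv_fix h1, inv_fix h2]
    obtain ⟨h4, h5⟩ := key h h3.1 h3.2
    have h6 : g'.2 s = s := h4
    have h7 : g'.2⁻¹ (g'.1⁻¹ (g'.2 s)) = s := h5
    rw [h6] at h7
    have h8 := congrArg (⇑g'.2) h7
    rw [RelIso.apply_inv_self, h6] at h8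
    have h9 := congrArg (⇑g'.1) h8
    rw [RelIso.apply_inv_self] at h9
    exact ⟨h9.symm, h6⟩
  · exact key h h1 h2

lemma Ctx.fixn (c : Ctx A B A' B' A₁ B₁ τ F n W f) {z : Ω} (hz : A z = z) :
    bdy A B z = z ∧ τ z = z ∧ ∀ i, i ≤ n → (f i).1 z = z ∧ (f i).2 z = z := by
  have hB := c.fixA hz
  have hb : bdy A B z = z := by
    change A (B (A⁻¹ (B⁻¹ z))) = z
    rw [inv_fix hB, inv_fix hz, hB, hz]
  refine ⟨hb, c.btw.fix hb, ?_⟩
  intro i
  induction i with
  | zero => intro _; rw [c.f0]; exact ⟨hz, inv_fix hB⟩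
  | succ i ih =>
    intro hi
    obtain ⟨g1, g2⟩ := ih (by omega)
    exact Step_fix (c.step i hi) g1 g2

/-- Both ends of an interval are fixed. -/
def Ends (e e' : Ω) (x : Ω ≃o Ω) : Prop := x e = e ∧ x e' = e'

/-- Every point of the open interval is moved up. -/
def Ups (e e' : Ω) (x : Ω ≃o Ω) : Prop := ∀ r, e < r → r < e' → r < x r

/-- Every point of the open interval is moved down. -/
def Dns (e e' : Ω) (x : Ω ≃o Ω) : Prop := ∀ r, e < r → r < e' → x r < r

section Interval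

variable {e e' : Ω} {x y : Ω ≃o Ω}

lemma Ends.inv (h : Ends e e' x) : Ends e e' x⁻¹ := ⟨inv_fix h.1, inv_fix h.2⟩

lemma Ends.mul (h : Ends e e' x) (h' : Ends e e' y) : Ends e e' (x * y) :=
  ⟨by rw [RelIso.mul_apply, h'.1, h.1], by rw [RelIso.mul_apply, h'.2, h.2]⟩

lemma Ends.mem (h : Ends e e' x) {r : Ω} (h1 : e < r) (h2 : r < e') : e < x r ∧ x r < e' := by
  constructor
  · have := x.strictMono h1; rwa [h.1] at this
  · have := x.strictMono h2; rwa [h.2] at this

lemma Ups.conj (h : Ups e e' y) (hx : Ends e e' x) : Ups e e' (x * y * x⁻¹) := by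
  intro r h1 h2
  obtain ⟨g1, g2⟩ := hx.inv.mem h1 h2
  have := x.strictMono (h _ g1 g2)
  rwa [RelIso.apply_inv_self] at this

lemma Dns.conj (h : Dns e e' y) (hx : Ends e e' x) : Dns e e' (x * y * x⁻¹) := by
  intro r h1 h2
  obtain ⟨g1, g2⟩ := hx.inv.mem h1 h2
  have := x.strictMono (h _ g1 g2)
  rwa [RelIso.apply_inv_self] at this

lemma Ups.inv (h : Ups e e' y) : Dns e e' y⁻¹ := fun r h1 h2 => inv_lt_of_gt (h r h1 h2)

lemma Dns.inv (h : Dns e e' y) : Ups e e' y⁻¹ := fun r h1 h2 => inv_gt_of_lt (h r h1 h2)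

/-- The intermediate value theorem. -/
lemma exists_fix {x : Ω ≃o Ω} {s r : Ω} (h1 : s ≤ x s) (h2 : x r < r) (h3 : s ≤ r) :
    ∃ p, s ≤ p ∧ p ≤ r ∧ x p = p := by
  set S : Set Ω := {y | y ≤ r ∧ y ≤ x y} with hS
  set p := sSup S with hp
  have hpr : p ≤ r := sSup_le (fun y hy => hy.1)
  have hsp : s ≤ p := le_sSup ⟨h3, h1⟩
  have hpx : p ≤ x p := sSup_le (fun y hy => hy.2.trans (x.monotone (le_sSup hy)))
  refine ⟨p, hsp, hpr, ?_⟩
  by_contra hne
  have h4 : p < x p := lt_of_le_of_ne hpx (Ne.symm hne)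
  have h5 : p < r := by
    apply lt_of_le_of_ne hpr
    intro h6
    rw [h6] at h4
    exact absurd (h4.trans h2) (lt_irrefl _)
  have h6 : p < min (x p) r := lt_min h4 h5
  have h7 : min (x p) r ∈ S :=
    ⟨min_le_right _ _, (min_le_left _ _).trans (x.monotone h6.le)⟩
  exact absurd (le_sSup h7) (not_le.mpr h6)

/-- A map without fixed points in an interval has constant sign. -/
lemma const_sign (hx : ∀ r, e < r → r < e' → x r ≠ r) : Ups e e' x ∨ Dns e e' x := by
  by_contra hn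
  rw [not_or] at hn
  unfold Ups Dns at hn
  push Not at hn
  obtain ⟨⟨r, r1, r2, r3⟩, ⟨q, q1, q2, q3⟩⟩ := hn
  have r4 : x r < r := lt_of_le_of_ne r3 (hx r r1 r2)
  rcases le_total q r with h | h
  · obtain ⟨p, p1, p2, p3⟩ := exists_fix q3 r4 h
    exact hx p (q1.trans_le p1) (p2.trans_lt r2) p3
  · have q4 : q < x q := lt_of_le_of_ne q3 (Ne.symm (hx q q1 q2))
    obtain ⟨p, p1, p2, p3⟩ := exists_fix (x := x⁻¹) (inv_gt_of_lt r4).le (inv_lt_of_gt q4) h
    have p4 := inv_fix p3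
    rw [inv_inv] at p4
    exact hx p (r1.trans_le p1) (p2.trans_lt q2) p4

end Interval

section Quadrants

variable (c : Ctx A B A' B' A₁ B₁ τ F n W f) {e e' s : Ω}

include c

lemma Ctx.V0n : V (f n) 0 = A₁ := by rw [c.fn]; exact V_zero _ _

lemma Ctx.V1n : V (f n) (-1) = B₁⁻¹ := by rw [c.fn]; exact V_neg_one _ _

lemma Ctx.Vpn : V (f n) 1 = A₁ * B₁ * A₁⁻¹ := by
  have h := V_add_two (f n) dy1
  rw [show (-1 : ℝ) + 2 = 1 by norm_num, c.V1n, inv_inv] at h
  rw [h, c.fn]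
  change A₁ * B₁⁻¹⁻¹ * A₁⁻¹ * B₁⁻¹ * B₁ = _
  rw [inv_inv, inv_mul_cancel_right]

lemma Ctx.V2n : V (f n) 2 = (dd (f n) * B₁) * A₁⁻¹ * (dd (f n) * B₁)⁻¹ := by
  have h := V_add_two (f n) dy0
  rw [zero_add, c.V0n] at h
  rw [h, c.fn]
  change (A₁ * B₁⁻¹⁻¹ * A₁⁻¹ * B₁⁻¹) * A₁⁻¹ = ((A₁ * B₁⁻¹⁻¹ * A₁⁻¹ * B₁⁻¹) * B₁) * A₁⁻¹ *
    ((A₁ * B₁⁻¹⁻¹ * A₁⁻¹ * B₁⁻¹) * B₁)⁻¹
  group

lemma Ctx.V3n : V (f n) 3 = dd (f n) * B₁⁻¹ * (dd (f n))⁻¹ := by
  have h := V_add_two (f n) dyp1
  have h2 := V_add_two (f n) dy1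
  rw [show (1 : ℝ) + 2 = 3 by norm_num] at h
  rw [show (-1 : ℝ) + 2 = 1 by norm_num] at h2
  rw [h, h2, c.V1n]
  group

lemma Ctx.bot_conj : V (f 0) (-2) = B * A⁻¹ * B⁻¹ := by
  rw [c.bot_two, bdy]
  group

lemma Ctx.bot_conj3 : V (f 0) (-3) = (B * A) * B * (B * A)⁻¹ := by
  rw [c.bot_three, bdy]
  group

lemma Ctx.bot_one : V (f 0) 1 = A * B * A⁻¹ := by
  have h := V_add_two (f 0) dy1
  rw [show (-1 : ℝ) + 2 = 1 by norm_num, c.bot_neg, inv_inv] at h
  rw [h, c.dd0, bdy]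
  group

/-- The fourth quadrant. -/
lemma Ctx.q4 (hA : Ends e e' A) (hB : Ends e e' B) (hτ : Ends e e' τ) (uA : Ups e e' A)
    (dB : Dns e e' B) (h1 : e < s) (h2 : s < e') (hd : s ≤ bdy A B s) : False := by
  have v2 : V (f 0) (-2) s < s := by
    rw [c.bot_conj]
    exact (uA.inv.conj hB) s h1 h2
  have v3 : V (f 0) (-3) s < s := by
    rw [c.bot_conj3]
    exact (dB.conj (hB.mul hA)) s h1 h2
  have v1 : s < V (f 0) (-1) s := by
    rw [c.bot_neg]
    exact dB.inv s h1 h2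
  obtain ⟨φ, q1, q2, q3⟩ := arc (by rw [c.dd0]; exact hd) dy2 v2
  have s1 : φ ≤ -3 := by
    by_contra hn
    push Not at hn
    exact absurd (q3 (-1) dy1 (by linarith) (by linarith)) (not_lt.mpr v1.le)
  have g1 : Gt (f 0) s φ (-4) := by
    rcases eq_or_lt_of_le (show -4 ≤ φ by linarith) with e | e
    · exact Or.inr ⟨e.symm, by norm_num; exact v2⟩
    · exact Or.inl e
  have g2 : ¬ Ge (f 0) s φ (-3) := by
    rw [not_ge]
    rcases eq_or_lt_of_le s1 with e | e
    · exact Or.inr ⟨e, v3⟩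
    · exact Or.inl e
  obtain ⟨ψ, hl⟩ := forward c.step (by rw [c.dd0]; exact hd) q3 n le_rfl
  have a1 : Gt (f n) s ψ (-2) := by
    have := c.k2 hl (-2) (by push_cast; norm_num; exact g1)
    push_cast at this
    norm_num at this
    exact this
  have a2 : ¬ Ge (f n) s ψ (-1) := by
    intro h
    apply g2
    have := c.k3 hl (-2) (by push_cast; norm_num; exact h)
    push_cast at this
    norm_num at this
    exact this
  have b0 : V (f n) 0 s < s := by
    refine neg_of_pos hl.tr' dy0 (by norm_num; exact a1) ?_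
    rw [not_ge] at a2 ⊢
    rcases a2 with h | ⟨h, _⟩
    · exact Or.inl (by linarith)
    · exact Or.inl (by linarith)
  have b1 : V (f n) (-1) s < s := by
    refine neg_of_pos hl.tr' dy1 ?_ a2
    rcases a1 with h | ⟨h, _⟩
    · exact Or.inl (by linarith)
    · exact Or.inl (by linarith)
  have c0 : A' (τ s) < τ s := by
    have := (c.top_lt (z := τ s) (x := 0)).mpr (by rw [RelIso.inv_apply_self]; exact b0)
    rwa [top_zero] at this
  have c1 : τ s < B' (τ s) := by
    have := (c.top_lt (z := τ s) (x := -1)).mpr (by rw [RelIso.inv_apply_self]; exact b1)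
    rwa [top_neg, inv_lt_iff] at this
  obtain ⟨r1, r2⟩ := hτ.mem h1 h2
  exact absurd ((c.rules (τ s)).tmin c0.le (c0.trans (uA _ r1 r2)).le) (not_le.mpr c1)

/-- The second quadrant. -/
lemma Ctx.q2 (hA : Ends e e' A) (hB : Ends e e' B) (dA : Dns e e' A)
    (uB : Ups e e' B) (h1 : e < s) (h2 : s < e') (hd : s ≤ bdy A B s) : False := by
  obtain ⟨u1, u2⟩ := c.btw.up s hd
  have v0 : V (f 0) 0 s < s := by rw [c.bot_zero]; exact dA s h1 h2
  have v1 : V (f 0) (-1) s < s := by rw [c.bot_neg]; exact uB.inv s h1 h2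
  have v2 : s < V (f 0) (-2) s := by
    rw [c.bot_conj]
    exact (dA.inv.conj hB) s h1 h2
  have vp : s < V (f 0) 1 s := by
    rw [c.bot_one]
    exact (uB.conj hA) s h1 h2
  obtain ⟨φ, q1, q2, q3⟩ := arc (by rw [c.dd0]; exact hd) dy0 v0
  have s1 : -2 ≤ φ := by
    by_contra hn
    push Not at hn
    exact absurd (q3 (-2) dy2 (by linarith) (by linarith)) (not_lt.mpr v2.le)
  have s2 : φ ≤ -1 := by
    by_contra hn
    push Not at hn
    exact absurd (q3 1 dyp1 (by linarith) (by linarith)) (not_lt.mpr vp.le)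
  have g1 : Gt (f 0) s φ (-2) := by
    rcases eq_or_lt_of_le s1 with e | e
    · exact Or.inr ⟨e.symm, by norm_num; exact v0⟩
    · exact Or.inl e
  have g2 : ¬ Ge (f 0) s φ (-1) := by
    rw [not_ge]
    rcases eq_or_lt_of_le s2 with e | e
    · exact Or.inr ⟨e, v1⟩
    · exact Or.inl e
  obtain ⟨ψ, hl⟩ := forward c.step (by rw [c.dd0]; exact hd) q3 n le_rfl
  have a1 : Gt (f n) s ψ 0 := by
    have := c.k2 hl (-1) (by push_cast; norm_num; exact g1)
    push_cast at this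
    norm_num at this
    exact this
  have a2 : ¬ Ge (f n) s ψ 1 := by
    intro h
    apply g2
    have := c.k3 hl (-1) (by push_cast; norm_num; exact h)
    push_cast at this
    norm_num at this
    exact this
  have b1 : V (f n) 1 s < s := by
    refine neg_of_pos hl.tr' dyp1 ?_ a2
    rcases a1 with h | ⟨h, _⟩
    · exact Or.inl (by linarith)
    · exact Or.inl (by linarith)
  have b2 : V (f n) 2 s < s := by
    refine neg_of_pos hl.tr' dyp2 (by norm_num; exact a1) ?_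
    rw [not_ge] at a2 ⊢
    rcases a2 with h | ⟨h, _⟩
    · exact Or.inl (by linarith)
    · exact Or.inl (by linarith)
  have c1 := (c.top_lt (z := τ s) (x := 1)).mpr (by rw [RelIso.inv_apply_self]; exact b1)
  have c2 := (c.top_lt (z := τ s) (x := 2)).mpr (by rw [RelIso.inv_apply_self]; exact b2)
  have d1 := before' dyp1 c1 u1 (by rw [c.dd_top]; exact u2)
  have d2 := before' dyp2 c2 u1 (by rw [c.dd_top]; exact u2)
  rw [show (1 : ℝ) - 2 = -1 by norm_num, top_neg, lt_inv_iff] at d1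
  rw [show (2 : ℝ) - 2 = 0 by norm_num, top_zero] at d2
  exact absurd ((c.rules s).tmax d2.le ((dA s h1 h2).trans d2).le) (not_le.mpr d1)

/-- The first quadrant. -/
lemma Ctx.q1 (hτ : Ends e e' τ) (hA₁ : Ends e e' A₁) (uA : Ups e e' A)
    (uB : Ups e e' B) (h1 : e < s) (h2 : s < e') (hd : s ≤ bdy A B s) : False := by
  have w : Ups e e' A' ∧ Ups e e' B' := by
    have key : ∀ r, e < r → r < e' → r < A' r ∧ r < B' r := by
      intro r r1 r2
      have a := uA r r1 r2
      have b := uB r r1 r2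
      have h3 : A r < A' r := by
        by_contra hn
        exact absurd ((c.rules r).bmax a.le (not_lt.mp hn)) (not_le.mpr b)
      exact ⟨a.trans h3, (c.rules r).tmax' (a.trans h3) h3⟩
    exact ⟨fun r r1 r2 => (key r r1 r2).1, fun r r1 r2 => (key r r1 r2).2⟩
  have uA₁ : Ups e e' A₁ := by
    have := w.1.conj hτ.inv
    rw [c.relA, inv_inv, show τ⁻¹ * (τ * A₁ * τ⁻¹) * τ = A₁ by group] at this
    exact this
  have uB₁ : Ups e e' B₁ := by
    have := w.2.conj hτ.inv
    rw [c.relB, inv_inv, show τ⁻¹ * (τ * B₁ * τ⁻¹) * τ = B₁ by group] at this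
    exact this
  have v0 : s < V (f 0) 0 s := by rw [c.bot_zero]; exact uA s h1 h2
  have v1 : V (f 0) (-1) s < s := by rw [c.bot_neg]; exact uB.inv s h1 h2
  obtain ⟨φ, q1, q2, q3⟩ := arc (by rw [c.dd0]; exact hd) dy1 v1
  have s1 : φ ≤ -2 := by
    by_contra hn
    push Not at hn
    exact absurd (q3 0 dy0 (by linarith) (by linarith)) (not_lt.mpr v0.le)
  have g1 : Gt (f 0) s φ (-4) := Or.inl (by linarith)
  have g2 : ¬ Ge (f 0) s φ (-1) := by
    rw [not_ge]
    exact Or.inl (by linarith)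
  obtain ⟨ψ, hl⟩ := forward c.step (by rw [c.dd0]; exact hd) q3 n le_rfl
  have a1 : Gt (f n) s ψ (-2) := by
    have := c.k2 hl (-2) (by push_cast; norm_num; exact g1)
    push_cast at this
    norm_num at this
    exact this
  have a2 : ¬ Ge (f n) s ψ 1 := by
    intro h
    apply g2
    have := c.k3 hl (-1) (by push_cast; norm_num; exact h)
    push_cast at this
    norm_num at this
    exact this
  by_cases h3 : Ge (f n) s ψ 0
  · have b1 : V (f n) 1 s < s := by
      refine neg_of_pos hl.tr' dyp1 ?_ a2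
      rcases h3 with h | ⟨h, _⟩
      · exact Or.inl (by linarith)
      · exact Or.inl (by linarith)
    rw [c.Vpn] at b1
    exact absurd (b1.trans ((uB₁.conj hA₁) s h1 h2)) (lt_irrefl _)
  · have b0 : V (f n) 0 s < s := neg_of_pos hl.tr' dy0 (by norm_num; exact a1) h3
    rw [c.V0n] at b0
    exact absurd (b0.trans (uA₁ s h1 h2)) (lt_irrefl _)

/-- The third quadrant. -/
lemma Ctx.q3 (hτ : Ends e e' τ) (hB₁ : Ends e e' B₁) (hδ : Ends e e' (bdy A B))
    (dA : Dns e e' A) (dB : Dns e e' B) (h1 : e < s) (h2 : s < e') (hd : s ≤ bdy A B s) :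
    False := by
  have w : Dns e e' A' ∧ Dns e e' B' := by
    have key : ∀ r, e < r → r < e' → A' r < r ∧ B' r < r := by
      intro r r1 r2
      have a := dA r r1 r2
      have b := dB r r1 r2
      have h3 : A' r < A r := by
        by_contra hn
        exact absurd ((c.rules r).bmin a.le (not_lt.mp hn)) (not_le.mpr b)
      exact ⟨h3.trans a, (c.rules r).tmin' (h3.trans a) h3⟩
    exact ⟨fun r r1 r2 => (key r r1 r2).1, fun r r1 r2 => (key r r1 r2).2⟩
  have dA₁ : Dns e e' A₁ := by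
    have := w.1.conj hτ.inv
    rw [c.relA, inv_inv, show τ⁻¹ * (τ * A₁ * τ⁻¹) * τ = A₁ by group] at this
    exact this
  have dB₁ : Dns e e' B₁ := by
    have := w.2.conj hτ.inv
    rw [c.relB, inv_inv, show τ⁻¹ * (τ * B₁ * τ⁻¹) * τ = B₁ by group] at this
    exact this
  have v0 : V (f 0) 0 s < s := by rw [c.bot_zero]; exact dA s h1 h2
  have v1 : s < V (f 0) (-1) s := by rw [c.bot_neg]; exact dB.inv s h1 h2
  obtain ⟨φ, q1, q2, q3⟩ := arc (by rw [c.dd0]; exact hd) dy0 v0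
  have s1 : -1 ≤ φ := by
    by_contra hn
    push Not at hn
    exact absurd (q3 (-1) dy1 (by linarith) (by linarith)) (not_lt.mpr v1.le)
  have g1 : Gt (f 0) s φ (-2) := Or.inl (by linarith)
  have g2 : ¬ Ge (f 0) s φ 1 := by
    rw [not_ge]
    exact Or.inl (by linarith)
  obtain ⟨ψ, hl⟩ := forward c.step (by rw [c.dd0]; exact hd) q3 n le_rfl
  have a1 : Gt (f n) s ψ 0 := by
    have := c.k2 hl (-1) (by push_cast; norm_num; exact g1)
    push_cast at this
    norm_num at this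
    exact this
  have a2 : ¬ Ge (f n) s ψ 3 := by
    intro h
    apply g2
    have := c.k3 hl 0 (by push_cast; norm_num; exact h)
    push_cast at this
    norm_num at this
    exact this
  have hδ' : Ends e e' (dd (f n)) := by rw [c.ddn]; exact hδ
  by_cases h3 : Ge (f n) s ψ 2
  · have b1 : V (f n) 3 s < s := by
      refine neg_of_pos hl.tr' dyp3 ?_ a2
      rcases h3 with h | ⟨h, _⟩
      · exact Or.inl (by linarith)
      · exact Or.inl (by linarith)
    rw [c.V3n] at b1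
    exact absurd (b1.trans ((dB₁.inv.conj hδ') s h1 h2)) (lt_irrefl _)
  · have b0 : V (f n) 2 s < s := neg_of_pos hl.tr' dyp2 (by norm_num; exact a1) h3
    rw [c.V2n] at b0
    exact absurd (b0.trans ((dA₁.inv.conj (hδ'.mul hB₁)) s h1 h2)) (lt_irrefl _)

/-- No component of the complement of the fixed points of `A`, case of a point which the
boundary moves up. -/
theorem Ctx.no_comp (h1 : e < s) (h2 : s < e') (he : A e = e) (he' : A e' = e')
    (hs : Ups e e' A ∨ Dns e e' A) (hd : s ≤ bdy A B s) : False := by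
  obtain ⟨b1, t1, f1⟩ := c.fixn he
  obtain ⟨b2, t2, f2⟩ := c.fixn he'
  have hA : Ends e e' A := ⟨he, he'⟩
  have hB : Ends e e' B := ⟨c.fixA he, c.fixA he'⟩
  have hτ : Ends e e' τ := ⟨t1, t2⟩
  have hδ : Ends e e' (bdy A B) := ⟨b1, b2⟩
  have hA₁ : Ends e e' A₁ := by
    have g1 := (f1 n le_rfl).1
    have g2 := (f2 n le_rfl).1
    rw [c.fn] at g1 g2
    exact ⟨g1, g2⟩
  have hB₁ : Ends e e' B₁ := by
    have g1 := (f1 n le_rfl).2
    have g2 := (f2 n le_rfl).2
    rw [c.fn] at g1 g2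
    have := Ends.inv (x := B₁⁻¹) ⟨g1, g2⟩
    rwa [inv_inv] at this
  have hne : ∀ r, e < r → r < e' → A r ≠ r := by
    intro r r1 r2
    rcases hs with h | h
    · exact (h r r1 r2).ne'
    · exact (h r r1 r2).ne
  have hsB : Ups e e' B ∨ Dns e e' B :=
    const_sign (fun r r1 r2 hr => hne r r1 r2 (c.fixB hr))
  rcases hs with uA | dA <;> rcases hsB with uB | dB
  · exact c.q1 hτ hA₁ uA uB h1 h2 hd
  · exact c.q4 hA hB hτ uA dB h1 h2 hd
  · exact c.q2 hA hB dA uB h1 h2 hd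
  · exact c.q3 hτ hB₁ hδ dA dB h1 h2 hd

end Quadrants

/-- The theorem for words. -/
theorem Ctx.fix_all (c : Ctx A B A' B' A₁ B₁ τ F n W f) (s : Ω) :
    A s = s ∧ A' s = s ∧ ∀ i, i ≤ n → (f i).1 s = s ∧ (f i).2 s = s := by
  have hA : A s = s := by
    by_contra hs
    obtain ⟨e, e', h1, h2, h3, h4, h5⟩ := component hs
    rcases le_total s (bdy A B s) with h | h
    · exact c.no_comp h1 h2 h3 h4 h5 h
    · refine c.dual.no_comp (s := s) h2 h1 h4 h3 ?_ (by rw [bdy_dual]; exact h)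
      rcases h5 with h5 | h5
      · exact Or.inr (fun r r1 r2 => h5 r r2 r1)
      · exact Or.inl (fun r r1 r2 => h5 r r2 r1)
  obtain ⟨_, hτ, hf⟩ := c.fixn hA
  refine ⟨hA, ?_, hf⟩
  obtain ⟨g1, _⟩ := hf n le_rfl
  rw [c.fn] at g1
  have g1' : A₁ s = s := g1
  rw [c.relA, RelIso.mul_apply, RelIso.mul_apply, inv_fix hτ, g1', hτ]

end Signs

end Pool.Agent.Helper25.FT
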