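import Mathlib
import Pool.Agent.Helper25.FT.Weak
import Pool.Agent.Helper25.FT.Rules

/-!
The groups of networks with a filled hole are not left-orderable.
-/

set_option autoImplicit false

namespace Pool.Agent.Helper25.FT

open Pool.Agent.Helper31.OrderAct
open Pool.Agent.Helper71.Rot
open Pool.Agent.Helper71.Tree (Glued Role LeftOrderable FillSpec spec_of_glued seq seq_get lw_take
  hw_take)

section Stacks

variable {Ω : Type*} [CompleteLinearOrder Ω] {G : Type*} [Group G] {L : List Letter}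
  (w : Stack G L) (ρ : G →* (Ω ≃o Ω))

/-- The frames of a stack. -/
def frames (i : ℕ) : (Ω ≃o Ω) × (Ω ≃o Ω) :=
  (ρ (w.a ⟨min i L.length, by omega⟩), (ρ (w.b ⟨min i L.length, by omega⟩))⁻¹)

lemma frames_fin (i : Fin (L.length + 1)) : frames w ρ i = (ρ (w.a i), (ρ (w.b i))⁻¹) := by
  have : (⟨min i L.length, by omega⟩ : Fin (L.length + 1)) = i := by
    apply Fin.ext
    simp only
    omega
  rw [frames, this]

lemma frames_cast (i : Fin L.length) :
    frames w ρ i = (ρ (w.a i.castSucc), (ρ (w.b i.castSucc))⁻¹) := frames_fin w ρ i.castSucc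

lemma frames_succ (i : Fin L.length) :
    frames w ρ (i + 1) = (ρ (w.a i.succ), (ρ (w.b i.succ))⁻¹) := frames_fin w ρ i.succ

lemma frames_zero : frames w ρ 0 = (ρ (w.a 0), (ρ (w.b 0))⁻¹) := frames_fin w ρ 0

lemma frames_last : frames w ρ L.length =
    (ρ (w.a (Fin.last L.length)), (ρ (w.b (Fin.last L.length)))⁻¹) :=
  frames_fin w ρ (Fin.last L.length)

/-- The meridians commute with the curves. -/
lemma m_comm (i : Fin L.length) : w.m i * w.curve i = w.curve i * w.m i := by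
  unfold Stack.curve
  split_ifs with h
  · exact (w.passB i h).2.2
  · exact (w.passA i (by simpa using h)).2.2

theorem stack_step (S : Fin L.length → Set (Ω ≃o Ω))
    (h : ∀ i, FillSpec false (L.get i).lo (L.get i).hi (ρ (w.m i)) (ρ (w.curve i)) (S i))
    (i : ℕ) (hi : i < L.length) : Step (seq L i) (frames w ρ i) (frames w ρ (i + 1)) := by
  have hb : Bd (L.get ⟨i, hi⟩).lo (L.get ⟨i, hi⟩).hi (ρ (w.m ⟨i, hi⟩)) (ρ (w.curve ⟨i, hi⟩)) :=
    (h ⟨i, hi⟩).bd (by rw [← map_mul, m_comm, map_mul])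
  rw [seq_get L hi]
  have e1 := frames_cast w ρ ⟨i, hi⟩
  have e2 := frames_succ w ρ ⟨i, hi⟩
  change frames w ρ i = _ at e1
  change frames w ρ (i + 1) = _ at e2
  rw [e1, e2]
  unfold Step
  unfold Stack.curve at hb
  split_ifs with hs
  · rw [if_pos hs] at hb
    obtain ⟨p1, p2, p3⟩ := w.passB ⟨i, hi⟩ hs
    refine ⟨(ρ (w.m ⟨i, hi⟩))⁻¹, hb.inv, ?_, ?_⟩
    · change (ρ (w.b (Fin.succ ⟨i, hi⟩)))⁻¹ = (ρ (w.b (Fin.castSucc ⟨i, hi⟩)))⁻¹
      rw [p1]
    · change (ρ (w.b (Fin.succ ⟨i, hi⟩)))⁻¹⁻¹ * (ρ (w.a (Fin.succ ⟨i, hi⟩)))⁻¹ *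
          (ρ (w.b (Fin.succ ⟨i, hi⟩)))⁻¹ = (ρ (w.m ⟨i, hi⟩))⁻¹⁻¹ *
          ((ρ (w.b (Fin.castSucc ⟨i, hi⟩)))⁻¹⁻¹ * (ρ (w.a (Fin.castSucc ⟨i, hi⟩)))⁻¹ *
          (ρ (w.b (Fin.castSucc ⟨i, hi⟩)))⁻¹)
      rw [p1, p2, map_mul, map_inv, inv_inv, inv_inv, mul_inv_rev, inv_inv]
      have p4 : ρ (w.m ⟨i, hi⟩) * ρ (w.b (Fin.castSucc ⟨i, hi⟩)) =
            ρ (w.b (Fin.castSucc ⟨i, hi⟩)) * ρ (w.m ⟨i, hi⟩) := by
        rw [← map_mul, p3, map_mul]
      rw [← mul_assoc, ← mul_assoc, ← mul_assoc, p4]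
  · rw [if_neg hs] at hb
    obtain ⟨p1, p2, p3⟩ := w.passA ⟨i, hi⟩ (by simpa using hs)
    refine ⟨ρ (w.m ⟨i, hi⟩), hb, ?_, ?_⟩
    · change ρ (w.a (Fin.succ ⟨i, hi⟩)) = ρ (w.a (Fin.castSucc ⟨i, hi⟩))
      rw [p1]
    · change (ρ (w.b (Fin.succ ⟨i, hi⟩)))⁻¹ = (ρ (w.m ⟨i, hi⟩))⁻¹ *
          (ρ (w.b (Fin.castSucc ⟨i, hi⟩)))⁻¹
      rw [p2, map_mul, mul_inv_rev]

/-- If all frames fix a point, so do all elements. -/
theorem stack_fix (S : Fin L.length → Set (Ω ≃o Ω))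
    (h : ∀ i, FillSpec false (L.get i).lo (L.get i).hi (ρ (w.m i)) (ρ (w.curve i)) (S i)) {s : Ω}
    (hf : ∀ i, i ≤ L.length → (frames w ρ i).1 s = s ∧ (frames w ρ i).2 s = s) :
    (∀ g ∈ Set.range w.a ∪ Set.range w.b ∪ Set.range w.m, ρ g s = s) ∧
      ∀ i, ∀ g ∈ S i, g s = s := by
  have hab : ∀ i : Fin (L.length + 1), ρ (w.a i) s = s ∧ ρ (w.b i) s = s := by
    intro i
    obtain ⟨h1, h2⟩ := hf i (by omega)
    rw [frames_fin] at h1 h2
    refine ⟨h1, ?_⟩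
    have := inv_fix h2
    rwa [inv_inv] at this
  have hm : ∀ i : Fin L.length, ρ (w.curve i) s = s ∧ ρ (w.m i) s = s := by
    intro i
    have h3 : ρ (w.curve i) s = s := by
      unfold Stack.curve
      split_ifs
      · exact (hab _).2
      · exact (hab _).1
    exact ⟨h3, ((h i).bd (by rw [← map_mul, m_comm, map_mul])).fix h3⟩
  constructor
  · rintro g ((⟨i, rfl⟩ | ⟨i, rfl⟩) | ⟨i, rfl⟩)
    · exact (hab i).1
    · exact (hab i).2
    · exact (hm i).2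
  · intro i g hg
    exact (h i).fix s (hm i).2 (hm i).1 g hg

end Stacks

section Main

variable {Ω : Type*} [CompleteLinearOrder Ω] {G : Type*} [Group G]

/-- The bounds for the curve parallel to the boundary. -/
lemma btw_of_fill {τ d : Ω ≃o Ω} {T : Set (Ω ≃o Ω)} (hc : τ * d = d * τ)
    (h : FillSpec false (some 0) (some 1) τ d T) : Btw τ d := by
  have hb := h.bd hc
  have h0 := hb.lower 0 rfl
  have h1 := hb.upper 1 rfl
  rw [neg_zero, zpow_zero, one_mul] at h0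
  rw [zpow_one, show d * τ⁻¹ = τ⁻¹ * d from ((show Commute τ d from hc).inv_left.eq).symm] at h1
  refine ⟨hc, fun s hs => ⟨(h0.up s hs).1, ?_⟩, fun s hs => ⟨(h0.dn s hs).1, ?_⟩⟩
  · have := τ.monotone (h1.up s hs).1
    rwa [RelIso.mul_apply, RelIso.apply_inv_self] at this
  · have := τ.monotone (h1.dn s hs).1
    rwa [RelIso.mul_apply, RelIso.apply_inv_self] at this

/-- All the elements act trivially. -/
theorem act_trivial (ρ : G →* (Ω ≃o Ω)) {Γ : Pattern} (hΓ : Γ.Valid) (N : Net G Γ)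
    {S : Fin Γ.e → Set G} (hS : ∀ i, Glued (.fill true (some 0) none) (N.x i) (N.step i) (S i))
    {L : List Letter} (hL : Turning L) (w : Stack G L) {U : Fin L.length → Set G}
    (hU : ∀ i, Glued (.fill false (L.get i).lo (L.get i).hi) (w.m i) (w.curve i) (U i))
    (hA : w.a 0 = N.w 1) (hB : w.b 0 = N.bot) {τ : G} {T : Set G}
    (ha : N.w 2 = τ * w.a (Fin.last L.length) * τ⁻¹)
    (hb : N.top = τ * w.b (Fin.last L.length) * τ⁻¹) (hc : τ * N.bdry = N.bdry * τ)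
    (hT : Glued (.fill false (some 0) (some 1)) τ N.bdry T) (s : Ω) :
    ∀ g ∈ Set.range N.w ∪ Set.range N.x ∪ Set.range w.a ∪ Set.range w.b ∪ Set.range w.m ∪
      {τ} ∪ (⋃ i, S i) ∪ (⋃ i, U i) ∪ T, ρ g s = s := by
  have hfill : ∀ i, FillSpec true (some 0) none (ρ (N.x i)) (ρ (N.step i)) (ρ '' (S i)) :=
    fun i => spec_of_glued ρ (hS i)
  have hT' : FillSpec false (some 0) (some 1) (ρ τ) (ρ N.bdry) (ρ '' T) := spec_of_glued ρ hT
  have hcomm : ∀ i, ρ (N.x i) * ρ (N.step i) = ρ (N.step i) * ρ (N.x i) := by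
    intro i
    rw [← map_mul, ← map_mul]
    exact congrArg ρ (N.comm i)
  have he : ∀ s, EdgeRule N ρ s := by
    intro s i
    have hp := ((hfill i).bd (hcomm i)).lower 0 rfl
    have hs := (hfill i).str (hcomm i) rfl 0 rfl s
    rw [neg_zero, zpow_zero, one_mul] at hp hs
    exact ⟨fun g => (hp.dn s g).1, fun g => (hp.up s g).1, hs⟩
  set F : Set (Ω ≃o Ω) := ρ '' (Set.range N.w ∪ Set.range N.x ∪ ⋃ i, S i) with hFdef
  have hr : ∀ s, Rules (ρ (N.w 1)) (ρ N.bot) (ρ (N.w 2)) (ρ N.top) F s := by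
    intro s
    refine rules hΓ (he s) F ?_
    intro h1 h2
    rintro _ ⟨g, (⟨v, rfl⟩ | ⟨i, rfl⟩) | hg, rfl⟩
    · exact h1 v
    · exact h2 i
    · obtain ⟨i, hi⟩ := Set.mem_iUnion.mp hg
      refine (hfill i).fix s (h2 _) ?_ _ ⟨g, hi, rfl⟩
      rw [Net.step, map_mul, map_inv, RelIso.mul_apply, h1, inv_fix (h1 _)]
  have hbd : ρ N.bdry = bdy (ρ (N.w 1)) (ρ N.bot) := by
    simp [Net.bdry, bdy]
  have hbtw : Btw (ρ τ) (bdy (ρ (N.w 1)) (ρ N.bot)) := by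
    rw [← hbd]
    refine btw_of_fill ?_ hT'
    rw [← map_mul, hc, map_mul]
  have hU' : ∀ i, FillSpec false (L.get i).lo (L.get i).hi (ρ (w.m i)) (ρ (w.curve i))
      (ρ '' (U i)) := fun i => spec_of_glued ρ (hU i)
  have c : Ctx (ρ (N.w 1)) (ρ N.bot) (ρ (N.w 2)) (ρ N.top) (ρ (w.a (Fin.last L.length)))
      (ρ (w.b (Fin.last L.length))) (ρ τ) F L.length (seq L) (frames w ρ) := by
    refine ⟨hr, hbtw, by rw [ha]; simp, by rw [hb]; simp, ?_, frames_last w ρ,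
      stack_step w ρ _ hU', ?_, ?_⟩
    · rw [← hA, ← hB]
      exact frames_zero w ρ
    · have := lw_take L L.length le_rfl 0
      rw [List.take_length] at this
      rw [this]
      exact hL.1
    · have := hw_take L L.length le_rfl 1
      rw [List.take_length] at this
      rw [this]
      exact hL.2
  obtain ⟨h1, h2, h3⟩ := c.fix_all s
  obtain ⟨g1, g2⟩ := stack_fix w ρ _ hU' h3
  obtain ⟨h4, _, h5⟩ := (hr s).bal h1 h2
  have h6 : bdy (ρ (N.w 1)) (ρ N.bot) s = s := by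
    change ρ (N.w 1) (ρ N.bot ((ρ (N.w 1))⁻¹ ((ρ N.bot)⁻¹ s))) = s
    rw [inv_fix h4, inv_fix h1, h4, h1]
  have h7 := hbtw.fix h6
  have h5' : ∀ g ∈ Set.range N.w ∪ Set.range N.x ∪ ⋃ i, S i, ρ g s = s :=
    fun g hg => h5 _ ⟨g, hg, rfl⟩
  rintro g ((((((((hg | hg) | hg) | hg) | hg) | hg) | hg) | hg) | hg)
  · exact h5' g (Or.inl (Or.inl hg))
  · exact h5' g (Or.inl (Or.inr hg))
  · exact g1 g (Or.inl (Or.inl hg))
  · exact g1 g (Or.inl (Or.inr hg))
  · exact g1 g (Or.inr hg)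
  · rw [Set.mem_singleton_iff] at hg
    rw [hg]
    exact h7
  · exact h5' g (Or.inr hg)
  · obtain ⟨i, hi⟩ := Set.mem_iUnion.mp hg
    exact g2 i _ ⟨g, hi, rfl⟩
  · exact hT'.fix s h7 (by rw [hbd]; exact h6) _ ⟨g, hg, rfl⟩

/-- The main theorem. -/
theorem not_leftOrderable {Γ : Pattern} (hΓ : Γ.Valid) (N : Net G Γ)
    {S : Fin Γ.e → Set G} (hS : ∀ i, Glued (.fill true (some 0) none) (N.x i) (N.step i) (S i))
    {L : List Letter} (hL : Turning L) (w : Stack G L) {U : Fin L.length → Set G}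
    (hU : ∀ i, Glued (.fill false (L.get i).lo (L.get i).hi) (w.m i) (w.curve i) (U i))
    (hA : w.a 0 = N.w 1) (hB : w.b 0 = N.bot) {τ : G} {T : Set G}
    (ha : N.w 2 = τ * w.a (Fin.last L.length) * τ⁻¹)
    (hb : N.top = τ * w.b (Fin.last L.length) * τ⁻¹) (hc : τ * N.bdry = N.bdry * τ)
    (hT : Glued (.fill false (some 0) (some 1)) τ N.bdry T)
    (hgen : Subgroup.closure (Set.range N.w ∪ Set.range N.x ∪ Set.range w.a ∪ Set.range w.b ∪
      Set.range w.m ∪ {τ} ∪ (⋃ i, S i) ∪ (⋃ i, U i) ∪ T) = ⊤) :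
    ¬ Pool.Agent.Helper71.Tree.LeftOrderable G := by
  rintro ⟨hnt, ⟨ho, hmul⟩⟩
  have hall : ∀ L : LowerSet G, ∀ g : G, cutHom hmul g L = L := by
    intro L' g
    have hfix := act_trivial (cutHom hmul) hΓ N hS hL w hU hA hB ha hb hc hT L'
    have hg : g ∈ Subgroup.closure
        (Set.range N.w ∪ Set.range N.x ∪ Set.range w.a ∪ Set.range w.b ∪
          Set.range w.m ∪ {τ} ∪ (⋃ i, S i) ∪ (⋃ i, U i) ∪ T) := by rw [hgen]; trivial
    induction hg using Subgroup.closure_induction with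
    | mem y hy => exact hfix y hy
    | one => simp
    | mul a b _ _ ha hb => rw [map_mul, RelIso.mul_apply, hb, ha]
    | inv a _ ha => rw [map_inv]; exact inv_fix ha
  obtain ⟨x, y, hxy⟩ := exists_pair_ne G
  have key : ∀ x y : G, y ≤ x := by
    intro x y
    have h1 := hall (LowerSet.Iic x) (y * x⁻¹)
    have h2 : y ∈ LowerSet.Iic x := by
      rw [← h1, mem_cutHom]
      simp
    exact h2
  exact hxy (le_antisymm (key y x) (key x y))

end Main

end Pool.Agent.Helper25.FT
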